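import Mathlib

-- part MP_0a2729_al.Rng
section

set_option autoImplicit false

namespace Pool.Agent.MP_0a2729_al

open Polynomial

/-- The field with two elements. -/
abbrev F2 : Type := ZMod 2

/-- Truncated polynomial ring. -/
abbrev Rng (n : ℕ) : Type := AdjoinRoot (X ^ n : F2[X])

/-- The nilpotent generator. -/
noncomputable def yy (n : ℕ) : Rng n := AdjoinRoot.root _

theorem yy_pow (n : ℕ) : yy n ^ n = 0 := by
  have := AdjoinRoot.mk_self (f := (X ^ n : F2[X]))
  rwa [map_pow, AdjoinRoot.mk_X] at this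

/-- The unit `1 + Y`. -/
noncomputable def xu (n : ℕ) : (Rng n)ˣ :=
  (IsNilpotent.isUnit_one_add (r := yy n) ⟨n, yy_pow n⟩).unit

/-- Integer powers of `1 + Y`. -/
noncomputable def xp (n : ℕ) (m : ℤ) : Rng n := ((xu n ^ m : (Rng n)ˣ) : Rng n)

theorem xp_add (n : ℕ) (a b : ℤ) : xp n (a + b) = xp n a * xp n b := by
  simp [xp, zpow_add]

theorem xp_zero (n : ℕ) : xp n 0 = 1 := by simp [xp]

theorem xp_nat (n m : ℕ) : xp n m = (1 + yy n) ^ m := by
  simp [xp, xu]

theorem xp_one (n : ℕ) : xp n 1 = 1 + yy n := by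
  simpa using xp_nat n 1

/-- Span of the powers with exponent in `[a, b)`. -/
noncomputable def Sp (n : ℕ) (a b : ℤ) : Submodule F2 (Rng n) :=
  Submodule.span F2 (xp n '' Set.Ico a b)

theorem xp_mem {n : ℕ} {a b m : ℤ} (h1 : a ≤ m) (h2 : m < b) : xp n m ∈ Sp n a b :=
  Submodule.subset_span ⟨m, ⟨h1, h2⟩, rfl⟩

theorem Sp_mono {n : ℕ} {a b a' b' : ℤ} (h1 : a' ≤ a) (h2 : b ≤ b') : Sp n a b ≤ Sp n a' b' :=
  Submodule.span_mono (Set.image_mono (Set.Ico_subset_Ico h1 h2))

theorem Sp_mul {n : ℕ} {a b : ℤ} (m : ℤ) {z : Rng n} (hz : z ∈ Sp n a b) :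
    xp n m * z ∈ Sp n (a + m) (b + m) := by
  induction hz using Submodule.span_induction with
  | mem x hx =>
    obtain ⟨j, hj, rfl⟩ := hx
    rw [← xp_add]
    exact xp_mem (by linarith [hj.1]) (by linarith [hj.2])
  | zero => simp
  | add x y _ _ hx hy =>
    rw [mul_add]
    exact add_mem hx hy
  | smul c x _ hx =>
    rw [mul_smul_comm]
    exact Submodule.smul_mem _ _ hx

theorem Sp_split {n : ℕ} {a b a' b' a'' b'' : ℤ}
    (h : ∀ m, a ≤ m → m < b → (a' ≤ m ∧ m < b') ∨ (a'' ≤ m ∧ m < b'')) :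
    Sp n a b ≤ Sp n a' b' ⊔ Sp n a'' b'' := by
  refine Submodule.span_le.2 ?_
  rintro _ ⟨m, hm, rfl⟩
  rcases h m hm.1 hm.2 with h | h
  · exact Submodule.mem_sup_left (xp_mem h.1 h.2)
  · exact Submodule.mem_sup_right (xp_mem h.1 h.2)

theorem Sp_succ {n : ℕ} {a b : ℤ} {z : Rng n} (hz : z ∈ Sp n a (b + 1)) :
    ∃ c : F2, z - c • xp n b ∈ Sp n a b := by
  have h : Sp n a (b + 1) ≤ Sp n a b ⊔ Submodule.span F2 {xp n b} := by
    refine Submodule.span_le.2 ?_
    rintro _ ⟨m, hm, rfl⟩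
    by_cases h : m = b
    · exact Submodule.mem_sup_right (Submodule.subset_span (by simp [h]))
    · exact Submodule.mem_sup_left (xp_mem hm.1 (by have := hm.2; omega))
  obtain ⟨u, hu, v, hv, rfl⟩ := Submodule.mem_sup.1 (h hz)
  obtain ⟨c, rfl⟩ := Submodule.mem_span_singleton.1 hv
  exact ⟨c, by simpa using hu⟩

theorem yy_pow_mem (n j : ℕ) : yy n ^ j ∈ Sp n 0 (j + 1) := by
  induction j with
  | zero => simpa [xp_zero] using xp_mem (n := n) (a := 0) (b := 1) (m := 0) le_rfl one_pos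
  | succ j ih =>
    have e : yy n ^ (j + 1) = xp n 1 * yy n ^ j - yy n ^ j := by
      rw [xp_one]
      ring
    rw [e]
    exact sub_mem (Sp_mono (by simp) (by simp) (Sp_mul 1 ih)) (Sp_mono le_rfl (by simp) ih)

theorem mem_Sp_zero (n : ℕ) (z : Rng n) : z ∈ Sp n 0 n := by
  induction z using AdjoinRoot.induction_on with
  | ih p =>
    induction p using Polynomial.induction_on' with
    | add p q hp hq =>
      rw [map_add]
      exact add_mem hp hq
    | monomial j c =>
      have e : AdjoinRoot.mk (X ^ n : F2[X]) (monomial j c) = c • yy n ^ j := by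
        rw [← C_mul_X_pow_eq_monomial, map_mul, map_pow, AdjoinRoot.mk_X, AdjoinRoot.mk_C,
          Algebra.smul_def]
        rfl
      rw [e]
      refine Submodule.smul_mem _ _ ?_
      by_cases h : j < n
      · exact Sp_mono le_rfl (by omega) (yy_pow_mem n j)
      · rw [pow_eq_zero_of_le (not_lt.1 h) (yy_pow n)]
        exact zero_mem _

theorem mem_Sp {n : ℕ} {a b : ℤ} (h : a + n ≤ b) (z : Rng n) : z ∈ Sp n a b := by
  have h1 := Sp_mul a (mem_Sp_zero n (xp n (-a) * z))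
  rw [← mul_assoc, ← xp_add, add_neg_cancel, xp_zero, one_mul] at h1
  exact Sp_mono (by simp) (by linarith) h1

theorem xp_mul_top {n : ℕ} (hn : 1 ≤ n) (m : ℤ) : xp n m * yy n ^ (n - 1) = yy n ^ (n - 1) := by
  have h1 : xp n 1 * yy n ^ (n - 1) = yy n ^ (n - 1) := by
    rw [xp_one, add_mul, one_mul, ← pow_succ', Nat.sub_add_cancel hn, yy_pow, add_zero]
  induction m using Int.induction_on with
  | zero => rw [xp_zero, one_mul]
  | succ j ih => rw [xp_add, mul_assoc, h1, ih]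
  | pred j ih =>
    rw [← h1, ← mul_assoc, ← xp_add, sub_add_cancel, h1, ih]

theorem top_not_mem {n : ℕ} (hn : 1 ≤ n) {a b : ℤ} (h : b + 1 ≤ a + n) :
    yy n ^ (n - 1) ∉ Sp n a b := by
  intro hz
  have h1 := Sp_mul (-a) hz
  rw [xp_mul_top hn] at h1
  have h2 : Sp n (a + -a) (b + -a) ≤ (degreeLT F2 (n - 1)).map
      (AdjoinRoot.mkₐ (X ^ n : F2[X])).toLinearMap := by
    refine Submodule.span_le.2 ?_
    rintro _ ⟨m, hm, rfl⟩
    obtain ⟨j, rfl⟩ := Int.eq_ofNat_of_zero_le (a := m) (by linarith [hm.1])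
    refine ⟨(1 + X) ^ j, ?_, ?_⟩
    · rw [SetLike.mem_coe, mem_degreeLT]
      refine lt_of_le_of_lt (degree_le_of_natDegree_le (n := j) ?_) ?_
      · refine natDegree_pow_le.trans ?_
        rw [add_comm, ← C_1, natDegree_X_add_C]
        omega
      · have := hm.2
        exact_mod_cast (by omega : j < n - 1)
    · simp [xp_nat, yy]
  obtain ⟨p, hp, he⟩ := h2 h1
  have h3 : AdjoinRoot.mk (X ^ n : F2[X]) (X ^ (n - 1) - p) = 0 := by
    rw [map_sub, map_pow, AdjoinRoot.mk_X, sub_eq_zero]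
    exact he.symm
  rw [AdjoinRoot.mk_eq_zero, X_pow_dvd_iff] at h3
  have h4 := h3 (n - 1) (by omega)
  rw [coeff_sub, coeff_X_pow_self, coeff_eq_zero_of_degree_lt (mem_degreeLT.1 hp)] at h4
  simp at h4

/-- The ideal generated by `Y ^ (n - m)`. -/
noncomputable def Pl (n m : ℕ) : Submodule F2 (Rng n) :=
  (Ideal.span {yy n ^ (n - m)}).restrictScalars F2

theorem mem_Pl {n m : ℕ} {z : Rng n} : z ∈ Pl n m ↔ ∃ g, g * yy n ^ (n - m) = z :=
  Ideal.mem_span_singleton'

theorem Pl_zero {n : ℕ} {z : Rng n} (h : z ∈ Pl n 0) : z = 0 := by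
  obtain ⟨g, rfl⟩ := mem_Pl.1 h
  simp [yy_pow]

theorem mem_Pl_top {n m : ℕ} (h : n ≤ m) (z : Rng n) : z ∈ Pl n m :=
  mem_Pl.2 ⟨z, by simp [Nat.sub_eq_zero_of_le h]⟩

theorem mul_mem_Pl {n m j : ℕ} (h : j ≤ m) (g : Rng n) : g * yy n ^ (n - j) ∈ Pl n m :=
  mem_Pl.2 ⟨g * yy n ^ (n - j - (n - m)), by
    rw [mul_assoc, ← pow_add, Nat.sub_add_cancel (by omega)]⟩

theorem Pl_succ {n m : ℕ} (a : ℤ) {z : Rng n} (hz : z ∈ Pl n (m + 1)) :
    ∃ c : F2, z - c • (xp n a * yy n ^ (n - (m + 1))) ∈ Pl n m := by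
  obtain ⟨g, rfl⟩ := mem_Pl.1 hz
  obtain ⟨p, hp⟩ := AdjoinRoot.mk_surjective (xp n (-a) * g)
  refine ⟨p.coeff 0, ?_⟩
  have e1 : xp n (-a) * g = AdjoinRoot.mk _ p.divX * yy n + p.coeff 0 • 1 := by
    rw [← hp]
    conv_lhs => rw [← divX_mul_X_add p]
    rw [map_add, map_mul, AdjoinRoot.mk_X, AdjoinRoot.mk_C, Algebra.smul_def, mul_one]
    rfl
  have e2 : g = xp n a * (AdjoinRoot.mk _ p.divX * yy n + p.coeff 0 • 1) := by
    rw [← e1, ← mul_assoc, ← xp_add, add_neg_cancel, xp_zero, one_mul]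
  have e3 : g * yy n ^ (n - (m + 1)) - p.coeff 0 • (xp n a * yy n ^ (n - (m + 1))) =
      (xp n a * AdjoinRoot.mk _ p.divX * yy n ^ (n - (m + 1) + 1 - (n - m))) * yy n ^ (n - m) := by
    rw [mul_assoc, ← pow_add, Nat.sub_add_cancel (by omega), e2]
    simp only [mul_add, add_mul, mul_smul_comm, smul_mul_assoc, mul_one]
    ring
  exact mem_Pl.2 ⟨_, e3.symm⟩

theorem chain {V : Type} [AddCommGroup V] [Module F2 V] (G : ℕ → Submodule F2 V) (e : ℕ → V)
    (M : ℕ) (h : ∀ v < M, ∀ z ∈ G (v + 1), ∃ c : F2, z - c • e v ∈ G v) {z : V} (hz : z ∈ G M) :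
    ∃ y : Fin M → F2, z - ∑ v, y v • e v ∈ G 0 := by
  induction M generalizing z with
  | zero => exact ⟨0, by simpa using hz⟩
  | succ M ih =>
    obtain ⟨c, hc⟩ := h M (by omega) z hz
    obtain ⟨y, hy⟩ := ih (fun v hv => h v (by omega)) hc
    refine ⟨Fin.snoc y c, ?_⟩
    rw [Fin.sum_univ_castSucc]
    simp only [Fin.snoc_castSucc, Fin.snoc_last, Fin.val_castSucc, Fin.val_last]
    rwa [add_comm, ← sub_sub]

theorem zigzag {K V : Type} [Field K] [AddCommGroup V] (G : ℕ → AddSubgroup V)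
    (ef : ℕ → ℕ → K →+ V) (φ : ℕ → K) (D : ℕ) (h0 : 1 ≤ D → φ 0 ≠ 0)
    (hrest : ∀ d s y, d < D → 0 < s → s ≤ d → ef s (d + 1) y ∈ G d)
    (hfill : ∀ d < D, ∀ z ∈ G (d + 1), ∃ y, z - ef 0 (d + 1) y ∈ G d) {z : V} (hz : z ∈ G D) :
    ∃ η : ℕ → K, z + ∑ d ∈ Finset.range D, ∑ s ∈ Finset.range (d + 1),
      ef s (d + 1) (η d * φ s) ∈ G 0 := by
  induction D generalizing z with
  | zero => exact ⟨0, by simpa using hz⟩
  | succ D ih =>
    obtain ⟨y, hy⟩ := hfill D (by omega) z hz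
    have h1 := h0 (by omega)
    have h2 : z + ∑ s ∈ Finset.range (D + 1), ef s (D + 1) (-y / φ 0 * φ s) ∈ G D := by
      rw [Finset.sum_range_succ', div_mul_cancel₀ _ h1, map_neg, add_comm (Finset.sum _ _),
        ← add_assoc, ← sub_eq_add_neg]
      exact add_mem hy (sum_mem fun s hs =>
        hrest D (s + 1) _ (by omega) (by omega) (Finset.mem_range.1 hs))
    obtain ⟨η, hη⟩ := ih (fun _ => h1) (fun d s y h3 => hrest d s y (by omega))
      (fun d hd => hfill d (by omega)) h2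
    refine ⟨Function.update η D (-y / φ 0), ?_⟩
    rw [Finset.sum_range_succ, Function.update_self, add_comm (Finset.sum _ _), ← add_assoc]
    have e : ∑ d ∈ Finset.range D, ∑ s ∈ Finset.range (d + 1),
        ef s (d + 1) (Function.update η D (-y / φ 0) d * φ s) =
        ∑ d ∈ Finset.range D, ∑ s ∈ Finset.range (d + 1), ef s (d + 1) (η d * φ s) :=
      Finset.sum_congr rfl fun d hd => by
        rw [Function.update_of_ne (Finset.mem_range.1 hd).ne]
    rwa [e]

end Pool.Agent.MP_0a2729_al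

end

-- part MP_0a2729_al.Comp
section

set_option autoImplicit false

namespace Pool.Agent.MP_0a2729_al

/-- The vectors through which a pair of lamps at distance `d` acts on one component. -/
noncomputable def vec (M u J μ n : ℕ) (m o : ℤ) (d v : ℕ) : Rng n :=
  if u ≤ d ∧ d < 2 * u then xp n (m + (M * (d - u) + v : ℕ))
  else if 2 * u ≤ d ∧ d ≤ μ then (if v = 0 then xp n (o + (M * u + (d - 2 * u) : ℕ)) else 0)
  else if J < d then xp n m * yy n ^ (n - (M * (d - J - 1) + v + 1))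
  else 0

/-- The filtration used along a zigzag. -/
noncomputable def Fil (M u J μ n : ℕ) (same : Prop) [Decidable same] (α β : ℤ) (d : ℕ) :
    Submodule F2 (Rng n) :=
  Sp n α (β + (M * u + (if same then min d μ + 1 - 2 * u else 0) : ℕ)) ⊔ Pl n (M * (d - J))

variable {M u J μ n : ℕ}

theorem vec_shift (m o p : ℤ) (d v : ℕ) :
    xp n p * vec M u J μ n m o d v = vec M u J μ n (m + p) (o + p) d v := by
  unfold vec
  split_ifs
  · rw [← xp_add]
    congr 1
    ring
  · rw [← xp_add]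
    congr 1
    ring
  · simp
  · rw [← mul_assoc, ← xp_add, add_comm p]
  · simp

theorem vec_small (hJ : u ≤ J) (m o : ℤ) {d : ℕ} (v : ℕ) (hd : d < u) :
    vec M u J μ n m o d v = 0 := by
  unfold vec
  rw [if_neg (by omega), if_neg (by omega), if_neg (by omega)]

theorem local_lt {d v : ℕ} (h1 : u ≤ d) (h2 : d < 2 * u) (hv : v < M) :
    M * (d - u) + v < M * u := by
  have : M * (d - u + 1) ≤ M * u := Nat.mul_le_mul_left _ (by omega)
  rw [Nat.mul_succ] at this
  omega

theorem vec_low {α E m o : ℤ} {d v : ℕ} (hv : v < M) (hd : d ≤ J) (h1 : α ≤ m)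
    (h2 : m + (M * u : ℕ) ≤ E)
    (h3 : 2 * u ≤ d → d ≤ μ → α ≤ o ∧ o + (M * u + (d - 2 * u) : ℕ) < E) :
    vec M u J μ n m o d v ∈ Sp n α E := by
  unfold vec
  split_ifs with c1 c2 c3 c4
  · have := local_lt c1.1 c1.2 hv
    exact xp_mem (by omega) (by omega)
  · have := h3 c2.1 c2.2
    exact xp_mem (by omega) this.2
  · exact zero_mem _
  · omega
  · exact zero_mem _

theorem vec_rest (hu : 1 ≤ u) (hn : n ≤ M * (M * u)) {same : Prop} [Decidable same]
    {α β m o : ℤ} {d d' v : ℕ} (hW : 2 * u ≤ μ → α + (J + M * u + μ : ℕ) ≤ β) (hv : v < M)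
    (hd : d' ≤ d) (h1 : α ≤ m) (h2 : m ≤ β) (h3 : same → α ≤ o ∧ o ≤ β)
    (h4 : ¬ same → o = α + d + 2) : vec M u J μ n m o d' v ∈ Fil M u J μ n same α β d := by
  by_cases hJ : d' ≤ J
  · by_cases hb : d + 1 ≤ J + M * u
    · refine Submodule.mem_sup_left (vec_low hv hJ h1 (by omega) fun h5 h6 => ?_)
      by_cases hs : same
      · have := h3 hs
        rw [if_pos hs]
        omega
      · have := h4 hs
        have := hW (by omega)
        rw [if_neg hs]
        omega
    · exact Submodule.mem_sup_right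
        (mem_Pl_top (hn.trans (Nat.mul_le_mul_left _ (by omega))) _)
  · by_cases hl : u ≤ d' ∧ d' < 2 * u
    · have := local_lt hl.1 hl.2 hv
      unfold vec
      rw [if_pos hl]
      exact Submodule.mem_sup_left (xp_mem (by omega) (by omega))
    by_cases hb : d + 1 ≤ J + M * u
    · unfold vec
      rw [if_neg hl]
      split_ifs with c2 c3 c4
      · refine Submodule.mem_sup_left (xp_mem ?_ ?_)
        · by_cases hs : same
          · have := h3 hs
            omega
          · have := h4 hs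
            omega
        · by_cases hs : same
          · have := h3 hs
            rw [if_pos hs]
            omega
          · have := h4 hs
            have := hW (by omega)
            rw [if_neg hs]
            omega
      · exact zero_mem _
      · refine Submodule.mem_sup_right (mul_mem_Pl ?_ _)
        have : M * (d' - J - 1 + 1) ≤ M * (d - J) := Nat.mul_le_mul_left _ (by omega)
        rw [Nat.mul_succ] at this
        omega
      · exact zero_mem _
    · exact Submodule.mem_sup_right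
        (mem_Pl_top (hn.trans (Nat.mul_le_mul_left _ (by omega))) _)

theorem vec_fill (hM : 2 ≤ M) (hμ : μ ≤ J) (hJ : M * u ≤ J) {same : Prop}
    [Decidable same] {α β m o : ℤ} {d : ℕ} (h3 : same → o = β) {z : Rng n}
    (hz : z ∈ Fil M u J μ n same α β (d + 1)) :
    ∃ y : Fin M → F2, z - ∑ v, y v • vec M u J μ n m o (d + 1) v ∈ Fil M u J μ n same α β d := by
  have h2u : 2 * u ≤ M * u := Nat.mul_le_mul_right _ hM
  obtain ⟨z1, hz1, z2, hz2, rfl⟩ := Submodule.mem_sup.1 hz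
  by_cases hd : J ≤ d
  · have e1 : M * (d + 1 - J) = M * (d - J) + M := by
      rw [show d + 1 - J = d - J + 1 by omega, Nat.mul_succ]
    rw [e1] at hz2
    obtain ⟨y, hy⟩ := chain (fun v => Pl n (M * (d - J) + v))
      (fun v => xp n m * yy n ^ (n - (M * (d - J) + v + 1))) M
      (fun v _ z hz => Pl_succ m hz) hz2
    refine ⟨y, ?_⟩
    have e2 : ∀ v : ℕ, vec M u J μ n m o (d + 1) v =
        xp n m * yy n ^ (n - (M * (d - J) + v + 1)) := by
      intro v
      unfold vec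
      rw [if_neg (by omega), if_neg (by omega), if_pos (by omega),
        show d + 1 - J - 1 = d - J by omega]
    simp only [e2]
    rw [add_sub_assoc]
    refine Submodule.add_mem_sup ?_ hy
    rwa [min_eq_right (by omega : μ ≤ d), ← min_eq_right (by omega : μ ≤ d + 1)]
  · rw [show d + 1 - J = d - J by omega] at hz2
    by_cases hs : same ∧ 2 * u ≤ d + 1 ∧ d + 1 ≤ μ
    · rw [if_pos hs.1, min_eq_left hs.2.2,
        show β + ((M * u + (d + 1 + 1 - 2 * u) : ℕ) : ℤ) =
          β + ((M * u + (d + 1 - 2 * u) : ℕ) : ℤ) + 1 by omega] at hz1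
      obtain ⟨c, hc⟩ := Sp_succ hz1
      refine ⟨Pi.single ⟨0, by omega⟩ c, ?_⟩
      rw [Finset.sum_eq_single ⟨0, by omega⟩ (fun b _ hb => by simp [hb]) (by simp)]
      unfold vec
      rw [if_neg (by omega), if_pos hs.2, if_pos rfl, Pi.single_eq_same, h3 hs.1,
        add_sub_right_comm]
      refine Submodule.add_mem_sup ?_ hz2
      rwa [if_pos hs.1, min_eq_left (by omega : d ≤ μ)]
    · refine ⟨0, ?_⟩
      simp only [Pi.zero_apply, zero_smul, Finset.sum_const_zero, sub_zero]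
      refine Submodule.add_mem_sup (Sp_mono le_rfl ?_ hz1) hz2
      split_ifs with h
      · simp only [h, true_and] at hs
        omega
      · exact le_rfl

theorem vec_local {o : ℤ} {d : ℕ} (hd : d + 1 < 2 * u) {z : Rng n}
    (hz : z ∈ Sp n 0 (M * (d + 1 + 1 - u) : ℕ)) :
    ∃ y : Fin M → F2, z - ∑ v, y v • vec M u J μ n 0 o (d + 1) v ∈
      Sp n 0 (M * (d + 1 - u) : ℕ) := by
  by_cases h : u ≤ d + 1
  · rw [show d + 1 + 1 - u = d + 1 - u + 1 by omega, Nat.mul_succ] at hz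
    obtain ⟨y, hy⟩ := chain (fun v => Sp n 0 (M * (d + 1 - u) + v : ℕ))
      (fun v => xp n (M * (d + 1 - u) + v : ℕ)) M
      (fun v _ z hz => Sp_succ (by simpa [add_assoc] using hz)) hz
    refine ⟨y, ?_⟩
    have e2 : ∀ v : ℕ, vec M u J μ n 0 o (d + 1) v = xp n (M * (d + 1 - u) + v : ℕ) := by
      intro v
      unfold vec
      rw [if_pos ⟨h, hd⟩, zero_add]
    simpa only [e2, add_zero] using hy
  · refine ⟨0, ?_⟩
    rw [show d + 1 + 1 - u = d + 1 - u by omega] at hz
    simpa using hz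

theorem Fil_zero (hu : 1 ≤ u) {same : Prop} [Decidable same] {α β : ℤ} {z : Rng n}
    (hz : z ∈ Fil M u J μ n same α β 0) : z ∈ Sp n α (β + (M * u : ℕ)) := by
  obtain ⟨z1, hz1, z2, hz2, rfl⟩ := Submodule.mem_sup.1 hz
  rw [Nat.zero_sub, mul_zero] at hz2
  rw [Pl_zero hz2, add_zero]
  refine Sp_mono le_rfl ?_ hz1
  split_ifs <;> omega

end Pool.Agent.MP_0a2729_al

end
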