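import Pool.Agent.MP_0a2729_al.Defs
import Pool.Agent.MP_0a2729_al.Mg.Comp

-- part MP_0a2729_al.Words
section

set_option autoImplicit false

namespace Pool.Agent.MP_0a2729_al

section Words

variable {Γ : Type} [Group Γ] {L : Type} (σ : L → Γ)

/-- `g` is a product of at most `n` letters. -/
def Wd (g : Γ) (n : ℕ) : Prop := ∃ w : List L, w.length ≤ n ∧ (w.map σ).prod = g

variable {σ}

theorem Wd.mono {g : Γ} {m n : ℕ} (h : Wd σ g m) (hmn : m ≤ n) : Wd σ g n := by
  obtain ⟨w, h1, h2⟩ := h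
  exact ⟨w, h1.trans hmn, h2⟩

theorem Wd.one : Wd σ 1 0 := ⟨[], le_rfl, rfl⟩

theorem Wd.letter (l : L) : Wd σ (σ l) 1 := ⟨[l], le_rfl, by simp⟩

theorem Wd.mul {g h : Γ} {m n : ℕ} (hg : Wd σ g m) (hh : Wd σ h n) : Wd σ (g * h) (m + n) := by
  obtain ⟨w, h1, h2⟩ := hg
  obtain ⟨w', h3, h4⟩ := hh
  refine ⟨w ++ w', by rw [List.length_append]; omega, ?_⟩
  rw [List.map_append, List.prod_append, h2, h4]

theorem Wd.inv (hinv : ∀ l, ∃ l', σ l' = (σ l)⁻¹) {g : Γ} {n : ℕ} (hg : Wd σ g n) :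
    Wd σ g⁻¹ n := by
  obtain ⟨w, h1, rfl⟩ := hg
  refine Wd.mono ?_ h1
  clear h1
  induction w with
  | nil => simpa using Wd.one
  | cons l w ih =>
    obtain ⟨l', hl⟩ := hinv l
    rw [List.map_cons, List.prod_cons, mul_inv_rev, ← hl, List.length_cons]
    exact ih.mul (Wd.letter l')

theorem Wd.finite [Finite L] (n : ℕ) : {g : Γ | Wd σ g n}.Finite := by
  refine ((List.finite_length_le L n).image fun w => (w.map σ).prod).subset ?_
  rintro g ⟨w, h1, h2⟩
  exact ⟨w, h1, h2⟩

end Words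

section Cayley

variable {G : Type} [Group G] {L : Type} (σ : L → G) (S : Finset G)

theorem walk_of_word (hS : ∀ l, σ l ∈ S) (w : List L) (a : G) :
    ∃ p : (SimpleGraph.mulCayley (S : Set G)).Walk a (a * (w.map σ).prod),
      p.length ≤ w.length := by
  induction w generalizing a with
  | nil => exact ⟨SimpleGraph.Walk.nil.copy rfl (by simp), by simp⟩
  | cons l w ih =>
    obtain ⟨p, hp⟩ := ih (a * σ l)
    have e : a * σ l * (w.map σ).prod = a * ((l :: w).map σ).prod := by simp [mul_assoc]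
    by_cases h : a = a * σ l
    · refine ⟨p.copy h.symm e, ?_⟩
      rw [SimpleGraph.Walk.length_copy, List.length_cons]
      omega
    · have hadj : (SimpleGraph.mulCayley (S : Set G)).Adj a (a * σ l) :=
        (SimpleGraph.mulCayley_adj' _ _ _).2 ⟨h, σ l, hS l, Or.inl rfl⟩
      refine ⟨(SimpleGraph.Walk.cons hadj p).copy rfl e, ?_⟩
      rw [SimpleGraph.Walk.length_copy, SimpleGraph.Walk.length_cons, List.length_cons]
      omega

theorem adj_letter (hS : ∀ s ∈ S, ∃ l, σ l = s) (hinv : ∀ l, ∃ l', σ l' = (σ l)⁻¹) {a b : G}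
    (h : (SimpleGraph.mulCayley (S : Set G)).Adj a b) : ∃ l, b = a * σ l := by
  obtain ⟨-, g, hg, h | h⟩ := (SimpleGraph.mulCayley_adj' _ _ _).1 h
  · obtain ⟨l, rfl⟩ := hS g hg
    exact ⟨l, h.symm⟩
  · obtain ⟨l, rfl⟩ := hS g hg
    obtain ⟨l', hl⟩ := hinv l
    exact ⟨l', by rw [hl, h, mul_inv_cancel_right]⟩

theorem word_of_walk (hS : ∀ s ∈ S, ∃ l, σ l = s) (hinv : ∀ l, ∃ l', σ l' = (σ l)⁻¹) {a b : G}
    (p : (SimpleGraph.mulCayley (S : Set G)).Walk a b) : Wd σ (a⁻¹ * b) p.length := by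
  induction p with
  | nil => simpa using Wd.one
  | @cons a c b h p ih =>
    obtain ⟨l, rfl⟩ := adj_letter σ S hS hinv h
    have := (Wd.letter (σ := σ) l).mul ih
    rw [SimpleGraph.Walk.length_cons, add_comm]
    simpa [mul_assoc] using this

theorem wordLength_le (hS : ∀ l, σ l ∈ S) {g : G} {n : ℕ} (h : Wd σ g n) :
    wordLength S g ≤ n := by
  obtain ⟨w, h1, rfl⟩ := h
  obtain ⟨p, hp⟩ := walk_of_word σ S hS w 1
  have := SimpleGraph.dist_le (p.copy rfl (one_mul _))
  rw [SimpleGraph.Walk.length_copy] at this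
  exact this.trans (hp.trans h1)

theorem reach_of_wd (hS : ∀ l, σ l ∈ S) {g : G} {n : ℕ} (h : Wd σ g n) :
    (SimpleGraph.mulCayley (S : Set G)).Reachable 1 g := by
  obtain ⟨w, -, rfl⟩ := h
  obtain ⟨p, -⟩ := walk_of_word σ S hS w 1
  exact ⟨p.copy rfl (one_mul _)⟩

theorem wd_wordLength (hS : ∀ l, σ l ∈ S) (hS' : ∀ s ∈ S, ∃ l, σ l = s)
    (hinv : ∀ l, ∃ l', σ l' = (σ l)⁻¹) {g : G} {n : ℕ} (h : Wd σ g n) :
    Wd σ g (wordLength S g) := by
  obtain ⟨p, hp⟩ := (reach_of_wd σ S hS h).exists_walk_length_eq_dist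
  have := word_of_walk σ S hS' hinv p
  rw [hp] at this
  simpa [wordLength] using this

theorem le_retreatDepth [Infinite G] (hS : ∀ l, σ l ∈ S) (hS' : ∀ s ∈ S, ∃ l, σ l = s)
    (hinv : ∀ l, ∃ l', σ l' = (σ l)⁻¹) (hall : ∀ g : G, ∃ n, Wd σ g n) {x : G} {U : Set G}
    {R : ℕ} (hU : U.Finite) (hx : x ∈ U) (hstep : ∀ g ∈ U, ∀ l, g * σ l ∈ U ∨ Wd σ (g * σ l) R) :
    wordLength S x ≤ retreatDepth S x + R := by
  have hne : wordLength S x ∈
      {k : ℕ | InInfiniteComponent S (outside S ((wordLength S x : ℤ) - k - 1)) x} := by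
    have hout : ∀ h : G, h ∈ outside S ((wordLength S x : ℤ) - wordLength S x - 1) := by
      intro h
      simp only [outside, Set.mem_ofPred_eq]
      omega
    refine ⟨hout x, ?_⟩
    have hreach : ∀ a b : G, (SimpleGraph.mulCayley (S : Set G)).Reachable a b →
        ((SimpleGraph.mulCayley (S : Set G)).induce
          (outside S ((wordLength S x : ℤ) - wordLength S x - 1))).Reachable
          ⟨a, hout a⟩ ⟨b, hout b⟩ := by
      rintro a b ⟨p⟩
      induction p with
      | nil => rfl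
      | @cons a c b h p ih =>
        have h' : ((SimpleGraph.mulCayley (S : Set G)).induce
            (outside S ((wordLength S x : ℤ) - wordLength S x - 1))).Adj
            ⟨a, hout a⟩ ⟨c, hout c⟩ := h
        exact h'.reachable.trans ih
    refine Set.infinite_of_injective_forall_mem (f := fun a : G => ⟨a, hout a⟩)
      (fun a b h => congrArg Subtype.val h) fun a => ?_
    rw [SimpleGraph.ConnectedComponent.mem_supp_iff, SimpleGraph.ConnectedComponent.eq]
    obtain ⟨n, hn⟩ := hall a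
    obtain ⟨m, hm⟩ := hall x
    exact hreach a x ((reach_of_wd σ S hS hn).symm.trans (reach_of_wd σ S hS hm))
  have hmem := Nat.sInf_mem ⟨_, hne⟩
  by_contra hlt
  obtain ⟨hg, hinf⟩ := hmem
  change x ∈ outside S ((wordLength S x : ℤ) - retreatDepth S x - 1) at hg
  apply hinf
  have key : ∀ a b : outside S ((wordLength S x : ℤ) - retreatDepth S x - 1),
      ((SimpleGraph.mulCayley (S : Set G)).induce
        (outside S ((wordLength S x : ℤ) - retreatDepth S x - 1))).Reachable a b →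
        a.1 ∈ U → b.1 ∈ U := by
    rintro a b ⟨p⟩
    induction p with
    | nil => exact id
    | @cons a c b h p ih =>
      intro ha
      apply ih
      obtain ⟨l, hl⟩ := adj_letter σ S hS' hinv (a := a.1) (b := c.1) h
      rcases hstep a.1 ha l with h1 | h1
      · rwa [hl]
      · exfalso
        have h2 := wordLength_le σ S hS h1
        have h3 : (wordLength S x : ℤ) - retreatDepth S x - 1 < wordLength S c.1 := c.2
        rw [← hl] at h2
        omega
  refine (hU.preimage Subtype.val_injective.injOn).subset fun b hb => ?_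
  rw [SimpleGraph.ConnectedComponent.mem_supp_iff, SimpleGraph.ConnectedComponent.eq] at hb
  exact key _ b hb.symm hx

end Cayley

theorem interface {Γ : Type} [Group Γ] {L : Type} [Finite L] (σ : L → Γ)
    (hinv : ∀ l, ∃ l', σ l' = (σ l)⁻¹) (ε : ℝ) (hε : 0 < ε)
    (H : ∀ n : ℕ, ∃ (x : Γ) (U : Set Γ) (R lam : ℕ), U.Finite ∧ x ∈ U ∧ (∃ m, Wd σ x m) ∧
      (∀ m, Wd σ x m → lam ≤ m) ∧ n ≤ lam ∧ (R : ℝ) ≤ (1 / 2 + ε) * lam ∧
      ∀ g ∈ U, ∀ l, g * σ l ∈ U ∨ Wd σ (g * σ l) R) :
    ∃ (G : Type) (_ : Group G) (S : Finset G), Infinite G ∧ (∀ s ∈ S, s⁻¹ ∈ S) ∧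
      Subgroup.closure (S : Set G) = ⊤ ∧ ∀ n : ℕ, ∃ x : G, n ≤ wordLength S x ∧
        (1 / 2 - ε) * (wordLength S x : ℝ) ≤ retreatDepth S x := by
  classical
  have := Fintype.ofFinite L
  let G := Subgroup.closure (Set.range σ)
  let τ : L → G := fun l => ⟨σ l, Subgroup.subset_closure ⟨l, rfl⟩⟩
  let S : Finset G := Finset.univ.image τ
  have hS : ∀ l, τ l ∈ S := fun l => Finset.mem_image_of_mem _ (Finset.mem_univ l)
  have hS' : ∀ s ∈ S, ∃ l, τ l = s := fun s hs => by simpa [S] using hs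
  have hinv' : ∀ l, ∃ l', τ l' = (τ l)⁻¹ := fun l => by
    obtain ⟨l', h⟩ := hinv l
    exact ⟨l', Subtype.ext h⟩
  have hval : ∀ w : List L, ((w.map τ).prod : G).1 = (w.map σ).prod := by
    intro w
    induction w with
    | nil => rfl
    | cons l w ih => simp only [List.map_cons, List.prod_cons, Subgroup.coe_mul, ih, τ]
  have hiff : ∀ (g : G) (n : ℕ), Wd τ g n ↔ Wd σ g.1 n := by
    intro g n
    constructor
    · rintro ⟨w, h1, h2⟩
      exact ⟨w, h1, by rw [← hval, h2]⟩
    · rintro ⟨w, h1, h2⟩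
      exact ⟨w, h1, Subtype.ext (by rw [hval, h2])⟩
  have hall : ∀ g : G, ∃ n, Wd τ g n := by
    rintro ⟨g, hg⟩
    simp only [hiff]
    induction hg using Subgroup.closure_induction with
    | mem x hx =>
      obtain ⟨l, rfl⟩ := hx
      exact ⟨1, Wd.letter l⟩
    | one => exact ⟨0, Wd.one⟩
    | mul x y _ _ hx hy =>
      obtain ⟨m, hm⟩ := hx
      obtain ⟨n, hn⟩ := hy
      exact ⟨m + n, hm.mul hn⟩
    | inv x _ hx =>
      obtain ⟨m, hm⟩ := hx
      exact ⟨m, hm.inv hinv⟩
  have hx : ∀ (x : Γ) (m : ℕ), Wd σ x m → x ∈ G := by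
    rintro x m ⟨w, -, rfl⟩
    rw [← hval]
    exact Subtype.prop _
  have hlen : ∀ (x : G) (lam : ℕ), (∀ m, Wd σ x.1 m → lam ≤ m) → lam ≤ wordLength S x := by
    intro x lam h
    obtain ⟨n, hn⟩ := hall x
    exact h _ ((hiff _ _).1 (wd_wordLength τ S hS hS' hinv' hn))
  have hinf : Infinite G := by
    by_contra hfin
    rw [not_infinite_iff_finite] at hfin
    obtain ⟨B, hB⟩ := (Set.finite_range (wordLength S)).bddAbove
    obtain ⟨x, U, R, lam, -, -, ⟨m, hm⟩, h4, h5, -⟩ := H (B + 1)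
    have h6 := hlen ⟨x, hx x m hm⟩ lam h4
    have h7 := hB ⟨⟨x, hx x m hm⟩, rfl⟩
    omega
  refine ⟨G, inferInstance, S, hinf, ?_, ?_, fun n => ?_⟩
  · intro s hs
    obtain ⟨l, rfl⟩ := hS' s hs
    obtain ⟨l', h⟩ := hinv' l
    rw [← h]
    exact hS l'
  · rw [eq_top_iff]
    intro g _
    obtain ⟨n, w, -, rfl⟩ := hall g
    refine Subgroup.list_prod_mem _ fun y hy => ?_
    obtain ⟨l, -, rfl⟩ := List.mem_map.1 hy
    exact Subgroup.subset_closure (hS l)
  · obtain ⟨x, U, R, lam, h1, h2, ⟨m, hm⟩, h4, h5, h6, h7⟩ := H n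
    have h8 := hlen ⟨x, hx x m hm⟩ lam h4
    refine ⟨⟨x, hx x m hm⟩, h5.trans h8, ?_⟩
    have h9 := le_retreatDepth τ S hS hS' hinv' hall (x := ⟨x, hx x m hm⟩)
      (U := Subtype.val ⁻¹' U) (R := R) (h1.preimage Subtype.val_injective.injOn) h2
      (fun g hg l => (h7 g.1 hg l).imp id fun h => (hiff _ _).2 h)
    have h10 : (wordLength S ⟨x, hx x m hm⟩ : ℝ) ≤ retreatDepth S ⟨x, hx x m hm⟩ + R := by
      exact_mod_cast h9
    have h11 : (lam : ℝ) ≤ wordLength S ⟨x, hx x m hm⟩ := by exact_mod_cast h8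
    nlinarith

end Pool.Agent.MP_0a2729_al

end

-- part MP_0a2729_al.Grp
section

set_option autoImplicit false

namespace Pool.Agent.MP_0a2729_al

/-- Data of a cocycle: a shift action `T` on `N` and the effect `eff i k` of a lamp at the edge
`i` switched after a lamp at the higher edge `k`. -/
structure Cfg (K N : Type) [Field K] [AddCommGroup N] where
  T : ℤ → N →+ N
  T_zero : ∀ n, T 0 n = n
  T_add : ∀ p q n, T (p + q) n = T p (T q n)
  eff : ℤ → ℤ → K →+ N
  eff_shift : ∀ p i k y, T p (eff i k y) = eff (i + p) (k + p) y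
  eff_le : ∀ i k y, k ≤ i → eff i k y = 0

variable {K N : Type} [Field K] [AddCommGroup N]

/-- Translation of a lamp configuration. -/
noncomputable def sh (p : ℤ) : (ℤ →₀ K) ≃+ (ℤ →₀ K) := Finsupp.domCongr (Equiv.addRight p)

@[simp] theorem sh_apply (p : ℤ) (f : ℤ →₀ K) (i : ℤ) : sh p f i = f (i - p) := by
  simp [sh, sub_eq_add_neg]

theorem sh_single (p i : ℤ) (a : K) : sh p (Finsupp.single i a) = Finsupp.single (i + p) a := by
  simp [sh]

theorem sh_zero (f : ℤ →₀ K) : sh 0 f = f := by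
  ext i
  simp

theorem sh_add (p q : ℤ) (f : ℤ →₀ K) : sh (p + q) f = sh p (sh q f) := by
  ext i
  simp [sub_sub]

namespace Cfg

variable (C : Cfg K N)

/-- The cocycle. -/
noncomputable def om : (ℤ →₀ K) →+ (ℤ →₀ K) →+ N :=
  Finsupp.liftAddHom fun k => AddMonoidHom.mk'
    (fun a => Finsupp.liftAddHom fun i => (C.eff i k).comp (AddMonoidHom.mulRight a))
    (fun a b => by
      ext i c
      simp [mul_add])

theorem om_single (k i : ℤ) (a b : K) :
    C.om (Finsupp.single k a) (Finsupp.single i b) = C.eff i k (b * a) := by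
  simp [om]

theorem om_shift (p : ℤ) (f g : ℤ →₀ K) : C.T p (C.om f g) = C.om (sh p f) (sh p g) := by
  induction f using Finsupp.induction_linear with
  | zero => simp
  | add f f' h h' => simp [h, h']
  | single k a =>
    induction g using Finsupp.induction_linear with
    | zero => simp
    | add g g' h h' => simp [h, h']
    | single i b => rw [sh_single, sh_single, om_single, om_single, C.eff_shift]

theorem om_eq_sum (f g : ℤ →₀ K) (I I' : Finset ℤ) (hf : f.support ⊆ I) (hg : g.support ⊆ I') :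
    C.om f g = ∑ k ∈ I, ∑ i ∈ I', C.eff i k (g i * f k) := by
  have h1 : f = ∑ k ∈ I, Finsupp.single k (f k) := by
    conv_lhs => rw [← Finsupp.sum_single f]
    exact Finsupp.sum_of_support_subset f hf _ (by simp)
  have h2 : g = ∑ i ∈ I', Finsupp.single i (g i) := by
    conv_lhs => rw [← Finsupp.sum_single g]
    exact Finsupp.sum_of_support_subset g hg _ (by simp)
  conv_lhs => rw [h1, h2]
  rw [map_sum C.om, AddMonoidHom.finsetSum_apply]
  refine Finset.sum_congr rfl fun k _ => ?_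
  rw [map_sum]
  exact Finset.sum_congr rfl fun i _ => C.om_single _ _ _ _

theorem om_mem (Y : AddSubgroup N) (f g : ℤ →₀ K)
    (h : ∀ i k, i < k → g i ≠ 0 → f k ≠ 0 → ∀ y, C.eff i k y ∈ Y) : C.om f g ∈ Y := by
  rw [C.om_eq_sum f g _ _ subset_rfl subset_rfl]
  refine sum_mem fun k hk => sum_mem fun i hi => ?_
  by_cases hik : i < k
  · exact h i k hik (Finsupp.mem_support_iff.1 hi) (Finsupp.mem_support_iff.1 hk) _
  · rw [C.eff_le _ _ _ (not_lt.1 hik)]
    exact zero_mem _

theorem om_eq_zero (f g : ℤ →₀ K) (h : ∀ i k, g i ≠ 0 → f k ≠ 0 → k ≤ i) : C.om f g = 0 :=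
  AddSubgroup.mem_bot.1 (C.om_mem ⊥ f g fun i k hik h1 h2 => absurd (h i k h1 h2) (not_le.2 hik))

end Cfg

/-- Elements of the extension. -/
@[ext] structure El (C : Cfg K N) where
  n : N
  f : ℤ →₀ K
  p : ℤ

namespace El

variable {C : Cfg K N}

noncomputable instance : Mul (El C) :=
  ⟨fun g h => ⟨g.n + C.T g.p h.n + C.om g.f (sh g.p h.f), g.f + sh g.p h.f, g.p + h.p⟩⟩

noncomputable instance : One (El C) := ⟨⟨0, 0, 0⟩⟩

noncomputable instance : Inv (El C) :=
  ⟨fun g => ⟨-C.T (-g.p) g.n + C.om (sh (-g.p) g.f) (sh (-g.p) g.f), -sh (-g.p) g.f, -g.p⟩⟩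

theorem mul_def (g h : El C) : g * h =
    ⟨g.n + C.T g.p h.n + C.om g.f (sh g.p h.f), g.f + sh g.p h.f, g.p + h.p⟩ := rfl

theorem one_def : (1 : El C) = ⟨0, 0, 0⟩ := rfl

theorem inv_def (g : El C) : g⁻¹ =
    ⟨-C.T (-g.p) g.n + C.om (sh (-g.p) g.f) (sh (-g.p) g.f), -sh (-g.p) g.f, -g.p⟩ := rfl

noncomputable instance : Group (El C) := Group.ofLeftAxioms
  (fun a b c => by
    simp only [mul_def, El.mk.injEq, map_add, AddMonoidHom.add_apply, C.T_add, sh_add,
      C.om_shift]
    refine ⟨by abel, by abel, by abel⟩)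
  (fun a => by
    simp [mul_def, one_def, C.T_zero, sh_zero])
  (fun a => by
    simp [mul_def, one_def, inv_def])

/-- The edge crossed by a step. -/
def edge (b : Bool) (p : ℤ) : ℤ := if b then p else p - 1

/-- The vertex reached by a step. -/
def next (b : Bool) (p : ℤ) : ℤ := if b then p + 1 else p - 1

variable (C) in
/-- The generators: cross an edge and add `a` to its lamp. -/
noncomputable def letter (l : Bool × K) : El C :=
  ⟨0, Finsupp.single (edge l.1 0) l.2, next l.1 0⟩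

theorem mul_letter (g : El C) (b : Bool) (a : K) : g * letter C (b, a) =
    ⟨g.n + C.om g.f (Finsupp.single (edge b g.p) a), g.f + Finsupp.single (edge b g.p) a,
      next b g.p⟩ := by
  cases b <;> simp [mul_def, letter, edge, next, sh_single, sub_eq_add_neg, add_comm]

theorem letter_inv (l : Bool × K) : ∃ l', letter C l' = (letter C l)⁻¹ := by
  obtain ⟨b, a⟩ := l
  refine ⟨(!b, -a), eq_inv_of_mul_eq_one_right ?_⟩
  rw [mul_letter]
  cases b <;> simp [letter, edge, next, one_def, C.om_single, C.eff_le]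

theorem pure_mul (ν : N) (g : El C) : (⟨ν, 0, 0⟩ : El C) * g = ⟨ν + g.n, g.f, g.p⟩ := by
  simp [mul_def, C.T_zero, sh_zero]

theorem mul_pure (ν : N) (g : El C) : g * (⟨ν, 0, 0⟩ : El C) = ⟨g.n + C.T g.p ν, g.f, g.p⟩ := by
  simp [mul_def]

/-- The part of a configuration below `m`. -/
noncomputable def below (g : ℤ →₀ K) (m : ℤ) : ℤ →₀ K := g.filter (· < m)

theorem below_apply (g : ℤ →₀ K) (m i : ℤ) : below g m i = if i < m then g i else 0 :=
  Finsupp.filter_apply _ _ _

theorem below_succ (g : ℤ →₀ K) (m : ℤ) :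
    below g (m + 1) = below g m + Finsupp.single m (g m) := by
  ext i
  simp only [below_apply, Finsupp.add_apply, Finsupp.single_apply]
  split_ifs <;> first | omega | simp [*]

theorem up_walk (ν : N) (g : ℤ →₀ K) (m : ℤ) (j c : ℕ)
    (h : Wd (letter C) ⟨ν, below g m, m⟩ c) :
    Wd (letter C) ⟨ν, below g (m + j), m + j⟩ (c + j) := by
  induction j with
  | zero => simpa using h
  | succ j ih =>
    have := ih.mul (Wd.letter (σ := letter C) (true, g (m + j)))
    rw [mul_letter, C.om_eq_zero] at this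
    · rw [Nat.cast_succ, ← add_assoc, below_succ]
      simpa [edge, next, add_assoc] using this
    · intro i k h1 h2
      simp only [edge, if_true, Finsupp.single_apply, below_apply] at h1 h2
      split_ifs at h1 h2 <;> first | omega | simp_all

theorem up_pass (g : ℤ →₀ K) (j : ℕ) (hg : ∀ i, g i ≠ 0 → 0 ≤ i ∧ i < j) :
    Wd (letter C) ⟨0, g, j⟩ j := by
  have h0 : below g 0 = 0 := by
    ext i
    rw [below_apply]
    split_ifs with h
    · by_contra h'
      have := hg i h'
      omega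
    · rfl
  have h1 : below g j = g := by
    ext i
    rw [below_apply]
    split_ifs with h
    · rfl
    · by_contra h'
      exact h (hg i (Ne.symm h')).2
  have := up_walk (C := C) 0 g 0 j 0 (by rw [h0]; exact Wd.one)
  simpa [h1] using this

theorem lamp_word (g : ℤ →₀ K) (j : ℕ) (hg : ∀ i, g i ≠ 0 → 0 ≤ i ∧ i < j) :
    Wd (letter C) ⟨0, g, 0⟩ (j + j) := by
  have h := (up_pass (C := C) g j hg).mul
    ((up_pass (C := C) 0 j (by simp)).inv letter_inv)
  simpa [mul_def, inv_def] using h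

end El

end Pool.Agent.MP_0a2729_al

end

-- part MP_0a2729_al.Loop
section

set_option autoImplicit false
set_option linter.unusedSectionVars false

namespace Pool.Agent.MP_0a2729_al

open El

variable {K N : Type} [Field K] [AddCommGroup N]

/-- Final lamp configuration of a word. -/
noncomputable def finF : (ℤ →₀ K) → ℤ → List (Bool × K) → (ℤ →₀ K)
  | f, _, [] => f
  | f, p, l :: w => finF (f + Finsupp.single (edge l.1 p) l.2) (next l.1 p) w

/-- Final position of a word. -/
def finP : ℤ → List (Bool × K) → ℤ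
  | p, [] => p
  | p, l :: w => finP (next l.1 p) w

/-- Sum of the products of a switch at `k` with a later switch at `i`. -/
noncomputable def kap (i k : ℤ) : (ℤ →₀ K) → ℤ → List (Bool × K) → K
  | _, _, [] => 0
  | f, p, l :: w => (if edge l.1 p = i then l.2 * f k else 0) +
      kap i k (f + Finsupp.single (edge l.1 p) l.2) (next l.1 p) w

/-- Number of upward crossings of the edge `e`. -/
def ups (e : ℤ) : ℤ → List (Bool × K) → ℕ
  | _, [] => 0
  | p, l :: w => (if l.1 = true ∧ p = e then 1 else 0) + ups e (next l.1 p) w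

/-- Number of upward steps. -/
def upc : List (Bool × K) → ℕ
  | [] => 0
  | l :: w => (if l.1 = true then 1 else 0) + upc w

theorem run_eq (C : Cfg K N) (I : Finset ℤ) (w : List (Bool × K)) (g : El C)
    (h1 : g.f.support ⊆ I) (h2 : ∀ e, |e - g.p| ≤ w.length → e ∈ I) :
    g * (w.map (letter C)).prod =
      ⟨g.n + ∑ i ∈ I, ∑ k ∈ I, C.eff i k (kap i k g.f g.p w), finF g.f g.p w, finP g.p w⟩ := by
  induction w generalizing g with
  | nil => simp [kap, finF, finP]
  | cons l w ih =>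
    obtain ⟨b, a⟩ := l
    have he : edge b g.p ∈ I := h2 _ (by
      rw [List.length_cons]
      cases b <;> simp [edge]
      omega)
    have hs : (Finsupp.single (edge b g.p) a).support ⊆ I :=
      Finsupp.support_single_subset.trans (by simpa using he)
    rw [List.map_cons, List.prod_cons, ← mul_assoc, mul_letter, ih]
    · simp only [kap, finF, finP, map_add, Finset.sum_add_distrib, add_assoc]
      congr 3
      rw [C.om_eq_sum _ _ I I h1 hs, Finset.sum_comm]
      refine Finset.sum_congr rfl fun i _ => Finset.sum_congr rfl fun k _ => ?_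
      rw [Finsupp.single_apply]
      split_ifs <;> simp
    · exact Finsupp.support_add.trans (Finset.union_subset h1 hs)
    · intro e he
      apply h2
      rw [List.length_cons]
      rw [abs_le] at he ⊢
      cases b <;> simp only [next, if_true, Bool.false_eq_true, if_false] at he <;>
        push_cast <;> omega

theorem finP_eq (p : ℤ) (w : List (Bool × K)) : finP p w + w.length = p + 2 * upc w := by
  induction w generalizing p with
  | nil => simp [finP, upc]
  | cons l w ih =>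
    obtain ⟨b, a⟩ := l
    have := ih (next b p)
    cases b <;> simp only [finP, upc, next, List.length_cons, if_true, Bool.false_eq_true,
      if_false] at this ⊢ <;> push_cast <;> omega

theorem sum_ups_le (I : Finset ℤ) (p : ℤ) (w : List (Bool × K)) :
    ∑ e ∈ I, ups e p w ≤ upc w := by
  induction w generalizing p with
  | nil => simp [ups]
  | cons l w ih =>
    simp only [ups, upc, Finset.sum_add_distrib]
    refine Nat.add_le_add ?_ (ih _)
    by_cases h : l.1 = true
    · simp only [h, true_and, if_true, Finset.sum_ite_eq]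
      split_ifs <;> simp
    · simp [h]

/-- Staying below an edge that is never crossed upwards. -/
theorem below_zero {i k e : ℤ} (hk : e ≤ k) (w : List (Bool × K)) (f : ℤ →₀ K)
    (p : ℤ) (hp : p ≤ e) (h : ups e p w = 0) :
    finF f p w k = f k ∧ kap i k f p w = f k * (finF f p w i - f i) ∧ finP p w ≤ e := by
  induction w generalizing f p with
  | nil => simp [finF, kap, finP, hp]
  | cons l w ih =>
    obtain ⟨b, a⟩ := l
    simp only [ups, Nat.add_eq_zero_iff, ite_eq_right_iff, one_ne_zero, imp_false, not_and] at h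
    have h1 : edge b p ≠ k ∧ next b p ≤ e := by
      cases b <;> simp only [edge, next, if_true, Bool.false_eq_true, if_false] <;>
        simp at h <;> omega
    obtain ⟨h2, h3, h4⟩ := ih (f + Finsupp.single (edge b p) a) (next b p) h1.2 h.2
    simp only [finF, kap, finP]
    refine ⟨by simp [h2, h1.1], ?_, h4⟩
    rw [h3]
    simp only [Finsupp.add_apply, Finsupp.single_apply, h1.1, if_false]
    split_ifs <;> ring

/-- No upward crossing of an edge strictly between `i` and `k`. -/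
theorem any_zero {i k e : ℤ} (hi : i < e) (hk : e < k) (w : List (Bool × K)) (f : ℤ →₀ K)
    (p : ℤ) (h : ups e p w = 0) :
    kap i k f p w = finF f p w k * (finF f p w i - f i) := by
  induction w generalizing f p with
  | nil => simp [finF, kap]
  | cons l w ih =>
    by_cases hp : p ≤ e
    · obtain ⟨h1, h2, -⟩ := below_zero (i := i) hk.le (l :: w) f p hp h
      rw [h1, h2]
    · obtain ⟨b, a⟩ := l
      simp only [ups, Nat.add_eq_zero_iff] at h
      have h1 : edge b p ≠ i := by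
        cases b <;> simp only [edge, if_true, Bool.false_eq_true, if_false] <;> omega
      simp only [finF, kap]
      rw [ih _ _ h.2]
      simp [h1]

theorem below_one {i k e : ℤ} (hi : i < e) (hk : e < k) (w : List (Bool × K)) (f : ℤ →₀ K)
    (p : ℤ) (hp : p ≤ e) (h : ups e p w ≤ 1) (h0 : f k = 0) (h1 : finF f p w k = 0) :
    kap i k f p w = 0 := by
  induction w generalizing f p with
  | nil => rfl
  | cons l w ih =>
    obtain ⟨b, a⟩ := l
    simp only [finF, kap, ups] at h h1 ⊢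
    rw [h0, mul_zero, ite_self, zero_add]
    by_cases hc : b = true ∧ p = e
    · rw [if_pos hc] at h
      rw [any_zero hi hk w _ _ (by omega), h1, zero_mul]
    · rw [if_neg hc] at h
      have h2 : edge b p ≠ k ∧ next b p ≤ e := by
        cases b <;> simp only [edge, next, if_true, Bool.false_eq_true, if_false] <;>
          simp at hc <;> omega
      exact ih _ _ h2.2 (by omega) (by simp [h0, h2.1]) h1

/-- Ending above an edge that is never crossed upwards. -/
theorem above_zero {i k e : ℤ} (hi : i ≤ e) (w : List (Bool × K)) (f : ℤ →₀ K)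
    (p : ℤ) (hp : e < finP p w) (h : ups e p w = 0) :
    finF f p w i = f i ∧ kap i k f p w = 0 ∧ e < p := by
  induction w generalizing f p with
  | nil => simpa [finF, kap, finP] using hp
  | cons l w ih =>
    obtain ⟨b, a⟩ := l
    simp only [ups, Nat.add_eq_zero_iff, ite_eq_right_iff, one_ne_zero, imp_false, not_and] at h
    obtain ⟨h2, h3, h4⟩ := ih (f + Finsupp.single (edge b p) a) (next b p) hp h.2
    have h1 : edge b p ≠ i ∧ e < p := by
      cases b <;> simp only [edge, next, if_true, Bool.false_eq_true, if_false] at h4 ⊢ <;>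
        simp at h <;> omega
    simp only [finF, kap]
    exact ⟨by simp [h2, h1.1], by simp [h3, h1.1], h1.2⟩

theorem cross_one {i k e : ℤ} (hi : i < e) (hk : e < k) (w : List (Bool × K)) (f : ℤ →₀ K)
    (p : ℤ) (hp : p ≤ e) (hq : e < finP p w) (h : ups e p w ≤ 1) :
    kap i k f p w = f k * (finF f p w i - f i) := by
  induction w generalizing f p with
  | nil => simp [finF, kap]
  | cons l w ih =>
    obtain ⟨b, a⟩ := l
    simp only [finF, kap, ups, finP] at h hq ⊢
    by_cases hc : b = true ∧ p = e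
    · rw [if_pos hc] at h
      obtain ⟨h2, h3, -⟩ := above_zero (i := i) (k := k) hi.le w
        (f + Finsupp.single (edge b p) a) _ hq (by omega)
      have h1 : edge b p ≠ i := by
        obtain ⟨rfl, rfl⟩ := hc
        simp only [edge, if_true]
        omega
      rw [h2, h3]
      simp [h1]
    · rw [if_neg hc] at h
      have h2 : edge b p ≠ k ∧ next b p ≤ e := by
        cases b <;> simp only [edge, next, if_true, Bool.false_eq_true, if_false] <;>
          simp at hc <;> omega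
      rw [ih _ _ h2.2 hq (by omega)]
      simp only [Finsupp.add_apply, Finsupp.single_apply, h2.1, if_false]
      split_ifs <;> ring

theorem above_one {i k e : ℤ} (hi : i < e) (hk : e < k) (w : List (Bool × K)) (f : ℤ →₀ K)
    (p : ℤ) (hp : e < p) (hq : e < finP p w) (h : ups e p w ≤ 1) (h1 : finF f p w i = f i) :
    kap i k f p w = 0 := by
  induction w generalizing f p with
  | nil => rfl
  | cons l w ih =>
    obtain ⟨b, a⟩ := l
    simp only [finF, kap, ups, finP] at h hq h1 ⊢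
    have h2 : edge b p ≠ i := by
      cases b <;> simp only [edge, if_true, Bool.false_eq_true, if_false] <;> omega
    have h3 : (f + Finsupp.single (edge b p) a : ℤ →₀ K) i = f i := by simp [h2]
    rw [if_neg h2, zero_add]
    by_cases hc : e < next b p
    · exact ih _ _ hc hq (by omega) (h1.trans h3.symm)
    · rw [cross_one hi hk w _ _ (not_lt.1 hc) hq (by omega), h1, h3, sub_self, mul_zero]

theorem ups_far (e p : ℤ) (w : List (Bool × K)) (h : (w.length : ℤ) ≤ |e - p|) :
    ups e p w = 0 := by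
  induction w generalizing p with
  | nil => rfl
  | cons l w ih =>
    obtain ⟨b, a⟩ := l
    rw [List.length_cons, le_abs] at h
    push_cast at h
    simp only [ups]
    rw [ih, if_neg (by omega)]
    rw [le_abs]
    cases b <;> simp only [next, if_true, Bool.false_eq_true, if_false] <;> omega

/-- The shape of a closed word. -/
theorem loop_shape (w : List (Bool × K)) (hf : finF 0 0 w = 0) (hp : finP 0 w = 0) :
    ∃ a b : ℤ, a ≤ 0 ∧ 0 ≤ b ∧ (∀ e, a ≤ e → e < b → 1 ≤ ups e 0 w) ∧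
      ∀ i k, i < k → kap i k 0 0 w ≠ 0 →
        a ≤ i ∧ k < b ∧ ∀ e, i < e → e < k → 2 ≤ ups e 0 w := by
  classical
  have e1 : ∃ m : ℕ, ups (m : ℤ) 0 w = 0 := ⟨w.length, ups_far _ _ _ (by simp)⟩
  have e2 : ∃ m : ℕ, ups (-(m : ℤ) - 1) 0 w = 0 :=
    ⟨w.length, ups_far _ _ _ (by rw [le_abs]; omega)⟩
  refine ⟨-(Nat.find e2 : ℤ), Nat.find e1, by omega, by omega, fun e h1 h2 => ?_,
    fun i k hik h => ⟨?_, ?_, fun e h1 h2 => ?_⟩⟩
  · by_cases he : 0 ≤ e
    · have := Nat.find_min e1 (m := e.toNat) (by omega)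
      rw [Int.toNat_of_nonneg he] at this
      omega
    · have := Nat.find_min e2 (m := (-e - 1).toNat) (by omega)
      rw [Int.toNat_of_nonneg (by omega), show -(-e - 1) - 1 = e by ring] at this
      omega
  · by_contra h'
    exact h (above_zero (i := i) (k := k) (by omega) w 0 0 (by omega) (Nat.find_spec e2)).2.1
  · by_contra h'
    apply h
    rw [(below_zero (i := i) (k := k) (by omega) w 0 0 (by omega)
      (Nat.find_spec e1)).2.1]
    simp
  · by_contra h'
    apply h
    by_cases he : 0 ≤ e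
    · exact below_one h1 h2 w 0 0 he (by omega) rfl (by rw [hf]; rfl)
    · exact above_one h1 h2 w 0 0 (by omega) (by omega) (by omega) (by rw [hf])

theorem count_le (υ : ℤ → ℕ) (Λ : ℕ) (a b : ℤ) (h0 : ∀ I : Finset ℤ, ∑ e ∈ I, υ e ≤ Λ)
    (h1 : ∀ e, a ≤ e → e < b → 1 ≤ υ e) (A : Finset ℤ)
    (hA : ∀ e ∈ A, a ≤ e ∧ e < b ∧ 2 ≤ υ e) : b - a + A.card ≤ Λ := by
  have h2 : ∑ e ∈ Finset.Ico a b, (1 + if e ∈ A then 1 else 0) ≤ ∑ e ∈ Finset.Ico a b, υ e := by
    refine Finset.sum_le_sum fun e he => ?_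
    rw [Finset.mem_Ico] at he
    split_ifs with h
    · exact (hA e h).2.2
    · exact h1 e he.1 he.2
  have h3 : Finset.Ico a b ∩ A = A := Finset.inter_eq_right.2 fun e he =>
    Finset.mem_Ico.2 ⟨(hA e he).1, (hA e he).2.1⟩
  rw [Finset.sum_add_distrib, Finset.sum_ite_mem, h3] at h2
  simp only [Finset.sum_const, smul_eq_mul, mul_one, Int.card_Ico] at h2
  have := h0 (Finset.Ico a b)
  omega

/-- Numerical form of the shape of a closed word: `D` is the largest distance of an interacting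
pair of edges, and one of the two ends is far from the longest interacting pairs. -/
theorem loop_numbers (w : List (Bool × K)) (hf : finF 0 0 w = 0) (hp : finP 0 w = 0)
    (hne : ∃ i k, i < k ∧ kap i k 0 0 w ≠ 0) :
    ∃ (a b D Λ : ℤ) (s : Bool), 2 * Λ = w.length ∧ 1 ≤ D ∧ D + 1 ≤ b - a ∧ b - a + D ≤ Λ + 1 ∧
      ∀ i k, i < k → kap i k 0 0 w ≠ 0 → a ≤ i ∧ k < b ∧ k - i ≤ D ∧
        (b - a + D + (k - i) ≤ Λ + 2 ∨
          b - a - D - 1 ≤ 2 * (if s then b - (k + 1) else i - a)) := by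
  classical
  obtain ⟨a, b, -, -, h1, h2⟩ := loop_shape w hf hp
  have hl := finP_eq 0 w
  rw [hp] at hl
  have hc := count_le (fun e => ups e 0 w) (upc w) a b (fun I => sum_ups_le I 0 w) h1
  let E : Finset (ℤ × ℤ) := (Finset.Ico a b ×ˢ Finset.Ico a b).filter fun q =>
    q.1 < q.2 ∧ ∀ e, q.1 < e → e < q.2 → 2 ≤ ups e 0 w
  have hE : ∀ i k, (i, k) ∈ E ↔
      a ≤ i ∧ k < b ∧ i < k ∧ ∀ e, i < e → e < k → 2 ≤ ups e 0 w := by
    intro i k
    simp only [E, Finset.mem_filter, Finset.mem_product, Finset.mem_Ico]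
    constructor
    · rintro ⟨⟨⟨h3, -⟩, -, h4⟩, h5, h6⟩
      exact ⟨h3, h4, h5, h6⟩
    · rintro ⟨h3, h4, h5, h6⟩
      exact ⟨⟨⟨h3, by omega⟩, by omega, h4⟩, h5, h6⟩
  have hEne : E.Nonempty := by
    obtain ⟨i, k, hik, h⟩ := hne
    obtain ⟨h3, h4, h5⟩ := h2 i k hik h
    exact ⟨(i, k), (hE i k).2 ⟨h3, h4, hik, h5⟩⟩
  obtain ⟨⟨i0, k0⟩, hq, hmax⟩ := E.exists_max_image (fun q => q.2 - q.1) hEne
  obtain ⟨q1, q2, q3, q4⟩ := (hE i0 k0).1 hq
  have hA0 : ∀ e ∈ Finset.Ioo i0 k0, a ≤ e ∧ e < b ∧ 2 ≤ ups e 0 w := fun e he => by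
    rw [Finset.mem_Ioo] at he
    exact ⟨by omega, by omega, q4 e he.1 he.2⟩
  have hc0 := hc _ hA0
  rw [Int.card_Ioo] at hc0
  refine ⟨a, b, k0 - i0, upc w, decide (i0 - a ≤ b - (k0 + 1)), by omega, by omega, by omega,
    by omega, fun i k hik h => ?_⟩
  obtain ⟨h3, h4, h5⟩ := h2 i k hik h
  have h6 : k - i ≤ k0 - i0 := hmax (i, k) ((hE i k).2 ⟨h3, h4, hik, h5⟩)
  refine ⟨h3, h4, h6, ?_⟩
  by_cases hd : Disjoint (Finset.Ioo i0 k0) (Finset.Ioo i k)
  · left
    have := hc (Finset.Ioo i0 k0 ∪ Finset.Ioo i k) fun e he => by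
      rcases Finset.mem_union.1 he with he | he
      · exact hA0 e he
      · rw [Finset.mem_Ioo] at he
        exact ⟨by omega, by omega, h5 e he.1 he.2⟩
    rw [Finset.card_union_of_disjoint hd, Int.card_Ioo, Int.card_Ioo] at this
    omega
  · right
    obtain ⟨e, he1, he2⟩ := Finset.not_disjoint_iff.1 hd
    rw [Finset.mem_Ioo] at he1 he2
    have h7 : max k k0 - min i i0 ≤ k0 - i0 := hmax (min i i0, max k k0) ((hE _ _).2
      ⟨by omega, by omega, by omega, fun e' h8 h9 => by
        by_cases h10 : i0 < e' ∧ e' < k0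
        · exact q4 e' h10.1 h10.2
        · exact h5 e' (by omega) (by omega)⟩)
    by_cases hs : i0 - a ≤ b - (k0 + 1)
    · simp only [hs, decide_true, if_true]
      omega
    · simp only [hs, decide_false, Bool.false_eq_true, if_false]
      omega

end Pool.Agent.MP_0a2729_al

end

-- part MP_0a2729_al.Model
section

set_option autoImplicit false

namespace Pool.Agent.MP_0a2729_al

open El

/-- Components: a scale, a threshold and a direction. -/
abbrev Ix (A : ℕ) : Type := ℕ × Fin A × Bool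

/-- Unit length at scale `s`. -/
def uu (A s : ℕ) : ℕ := (16 * A ^ 2) ^ s

/-- Window length at scale `s`. -/
def ww (A s : ℕ) : ℕ := 2 * A * uu A s

/-- Saturation threshold of a component. -/
def JJ {A : ℕ} (t : Ix A) : ℕ := (t.2.1 + 1) * ww A t.1

/-- Truncation of the reflection effects of a component. -/
def mu {A : ℕ} (t : Ix A) : ℕ := min (JJ t) (A * ww A t.1 - JJ t - ww A t.1)

/-- Dimension of a component. -/
def dm {A : ℕ} (t : Ix A) : ℕ := 2 * A * ww A t.1 - JJ t - 2 * ww A t.1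

/-- The direction of a component as a sign. -/
def sg (b : Bool) (i : ℤ) : ℤ := if b then i else -i

/-- The outer end of a pair of edges. -/
def oe (b : Bool) (i k : ℤ) : ℤ := if b then k + 1 else -i

/-- The abelian normal subgroup. -/
abbrev NN (A : ℕ) : Type := ∀ t : Ix A, Rng (dm t)

/-- The vectors of the component `t`. -/
noncomputable def vc {A : ℕ} (t : Ix A) (i k : ℤ) (v : ℕ) : Rng (dm t) :=
  vec (2 * A) (uu A t.1) (JJ t) (mu t) (dm t) (sg t.2.2 i) (oe t.2.2 i k) (k - i).toNat v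

variable {A : ℕ}

theorem uu_pos (hA : 1 ≤ A) (s : ℕ) : 1 ≤ uu A s :=
  Nat.one_le_pow _ _ (by positivity)

theorem uu_succ (s : ℕ) : uu A (s + 1) = 4 * (2 * A * ww A s) := by
  simp only [uu, ww, pow_succ]
  ring

theorem uu_mono (hA : 1 ≤ A) {s s' : ℕ} (h : s ≤ s') : uu A s ≤ uu A s' :=
  Nat.pow_le_pow_right (by positivity) h

theorem two_uu_le (hA : 1 ≤ A) (s : ℕ) : 2 * uu A s ≤ ww A s :=
  Nat.mul_le_mul_right _ (by omega)

theorem ww_le_JJ (t : Ix A) : ww A t.1 ≤ JJ t :=
  Nat.le_mul_of_pos_left _ (by omega)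

theorem JJ_le (t : Ix A) : JJ t ≤ A * ww A t.1 :=
  Nat.mul_le_mul_right _ t.2.1.2

variable {K : Type} [Field K] (co : K →+ (Fin A × Bool → Fin (2 * A) → F2)) (hA : 1 ≤ A)

/-- The cocycle data of the construction. -/
noncomputable def cfg : Cfg K (NN A) where
  T p := AddMonoidHom.mk' (fun n t => xp _ (sg t.2.2 p) * n t) fun a b => by
    funext t
    simp [mul_add]
  T_zero n := by
    funext t
    simp [sg, xp_zero]
  T_add p q n := by
    funext t
    simp only [AddMonoidHom.mk'_apply]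
    rw [← mul_assoc, ← xp_add]
    congr 2
    unfold sg
    split_ifs <;> ring
  eff i k := AddMonoidHom.mk' (fun y t => ∑ v, co y t.2 v • vc t i k v) fun a b => by
    funext t
    simp [add_smul, Finset.sum_add_distrib]
  eff_shift p i k y := by
    funext t
    simp only [AddMonoidHom.mk'_apply, Finset.mul_sum, mul_smul_comm, vc, vec_shift]
    refine Finset.sum_congr rfl fun v _ => ?_
    congr 2
    · unfold sg
      split_ifs <;> ring
    · unfold sg oe
      split_ifs <;> ring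
    · congr 1
      ring
  eff_le i k y h := by
    funext t
    simp only [AddMonoidHom.mk'_apply, Pi.zero_apply]
    refine Finset.sum_eq_zero fun v _ => ?_
    have h1 := uu_pos hA t.1
    have h2 := two_uu_le hA t.1
    have h3 := ww_le_JJ t
    rw [vc, vec_small (by omega) _ _ _ (by omega), smul_zero]

theorem cfg_T (p : ℤ) (n : NN A) (t : Ix A) :
    (cfg co hA).T p n t = xp _ (sg t.2.2 p) * n t := rfl

theorem cfg_eff (i k : ℤ) (y : K) (t : Ix A) :
    (cfg co hA).eff i k y t = ∑ v, co y t.2 v • vc t i k v := rfl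

theorem eff_mem (i k : ℤ) (y : K) (t : Ix A) (Y : Submodule F2 (Rng (dm t)))
    (h : ∀ v < 2 * A, vc t i k v ∈ Y) : (cfg co hA).eff i k y t ∈ Y := by
  rw [cfg_eff]
  exact sum_mem fun v _ => Y.smul_mem _ (h v v.2)

/-- Elements whose components in `P` lie in prescribed subspaces. -/
noncomputable def Des (P : Ix A → Prop) (F : ∀ t : Ix A, Submodule F2 (Rng (dm t))) :
    AddSubgroup (NN A) :=
  AddSubgroup.pi {t | P t} fun t => (F t).toAddSubgroup

theorem mem_Des {P : Ix A → Prop} {F : ∀ t : Ix A, Submodule F2 (Rng (dm t))} {n : NN A} :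
    n ∈ Des P F ↔ ∀ t, P t → n t ∈ F t := Iff.rfl

/-- Elements vanishing at all scales from `s` on. -/
noncomputable def Hi (s : ℕ) : AddSubgroup (NN A) := Des (fun t => s ≤ t.1) fun _ => ⊥

theorem mem_Hi {s : ℕ} {n : NN A} : n ∈ Hi s ↔ ∀ t : Ix A, s ≤ t.1 → n t = 0 := Iff.rfl

theorem T_mem_Hi {s : ℕ} {n : NN A} (p : ℤ) (h : n ∈ Hi s) : (cfg co hA).T p n ∈ Hi s :=
  mem_Hi.2 fun t ht => by rw [cfg_T, mem_Hi.1 h t ht, mul_zero]

theorem eff_mem_Hi {s : ℕ} {i k : ℤ} (y : K) (h : k - i < uu A s) :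
    (cfg co hA).eff i k y ∈ Hi s := by
  intro t ht
  refine eff_mem co hA i k y t ⊥ fun v _ => ?_
  have h1 := uu_pos hA t.1
  have h2 := two_uu_le hA t.1
  have h3 := ww_le_JJ t
  have h4 := uu_mono hA (show s ≤ t.1 from ht)
  rw [vc, vec_small (by omega) _ _ _ (by omega)]
  exact zero_mem _

theorem om_mem_Hi {s : ℕ} {a b : ℤ} {f g : ℤ →₀ K} (hf : ∀ i, f i ≠ 0 → i < b)
    (hg : ∀ i, g i ≠ 0 → a ≤ i) (h : b - a ≤ uu A s) : (cfg co hA).om f g ∈ Hi s :=
  (cfg co hA).om_mem _ _ _ fun i k _ h1 h2 y => eff_mem_Hi co hA y (by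
    have := hf k h2
    have := hg i h1
    omega)

theorem fill_Des (hco : Function.Surjective co) (s : ℕ) (P : Ix A → Prop)
    (hP : ∀ t, P t → t.1 = s) (F G : ∀ t : Ix A, Submodule F2 (Rng (dm t))) (i k : ℤ)
    (h : ∀ t, P t → ∀ z ∈ F t, ∃ y : Fin (2 * A) → F2, z - ∑ v, y v • vc t i k v ∈ G t)
    (z : NN A) (hz : z ∈ Des P F) : ∃ y, z - (cfg co hA).eff i k y ∈ Des P G := by
  classical
  have h1 : ∀ q : Fin A × Bool, ∃ y : Fin (2 * A) → F2, P (s, q) →
      z (s, q) - ∑ v, y v • vc (s, q) i k v ∈ G (s, q) := by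
    intro q
    by_cases hq : P (s, q)
    · obtain ⟨y, hy⟩ := h _ hq _ (hz _ hq)
      exact ⟨y, fun _ => hy⟩
    · exact ⟨0, fun h => absurd h hq⟩
  choose y hy using h1
  obtain ⟨a, ha⟩ := hco y
  refine ⟨a, fun t ht => ?_⟩
  obtain ⟨s', q⟩ := t
  obtain rfl : s' = s := hP _ ht
  have := hy q ht
  rw [← ha] at this
  exact this

/-- The central element at scale `s`. -/
noncomputable def xx (A s : ℕ) : NN A := fun t => if t.1 = s then yy _ ^ (dm t - 1) else 0

theorem lower (h3 : 3 ≤ A) (s m : ℕ) (h : Wd (letter (cfg co hA)) ⟨xx A s, 0, 0⟩ m) :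
    2 * (2 * A * ww A s) ≤ m + 12 * ww A s + 2 := by
  classical
  obtain ⟨w, hw, he⟩ := h
  have hr := run_eq (cfg co hA) (Finset.Icc (-(w.length : ℤ)) w.length) w 1 (by simp [one_def])
    (fun e he => by simpa [one_def, abs_le] using he)
  rw [one_mul, he] at hr
  simp only [one_def, El.mk.injEq, zero_add] at hr
  obtain ⟨hn, hf, hp⟩ := hr
  have hu := uu_pos hA s
  have hw2 := two_uu_le hA s
  have hAw : 3 * ww A s ≤ A * ww A s := Nat.mul_le_mul_right _ h3
  have e2 : 2 * A * ww A s = 2 * (A * ww A s) := mul_assoc _ _ _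
  have key : ∀ (q : Fin A × Bool) (a E : ℤ), E + 1 ≤ a + dm (s, q) →
      ∃ i k, i < k ∧ kap i k 0 0 w ≠ 0 ∧ ∃ v < 2 * A, vc (s, q) i k v ∉ Sp _ a E := by
    intro q a E hE
    by_contra hc
    push Not at hc
    have hJ := JJ_le (s, q)
    refine top_not_mem (n := dm (s, q)) ?_ hE ?_
    · simp only [dm] at hJ ⊢
      omega
    · have h1 := congrFun hn (s, q)
      simp only [xx, if_true, Finset.sum_apply] at h1
      rw [h1]
      refine sum_mem fun i _ => sum_mem fun k _ => ?_
      by_cases hik : i < k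
      · by_cases hk : kap i k 0 0 w = 0
        · rw [hk, map_zero]
          exact zero_mem _
        · exact eff_mem co hA _ _ _ _ _ (hc i k hik hk)
      · rw [(cfg co hA).eff_le _ _ _ (not_lt.1 hik)]
        exact zero_mem _
  obtain ⟨a, b, D, Λ, σ, l1, l2, l3, l4, l5⟩ := loop_numbers w hf.symm hp.symm (by
    obtain ⟨i, k, h1, h2, -⟩ := key (⟨0, hA⟩, true) 1 0 (by omega)
    exact ⟨i, k, h1, h2⟩)
  by_contra hlt
  have hD : D ≤ A * ww A s := by omega
  have hw0 : 0 < ww A s := by omega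
  have hc : (D.toNat - 1) / ww A s < A := by
    rw [Nat.div_lt_iff_lt_mul hw0]
    omega
  have j1 := Nat.div_add_mod (D.toNat - 1) (ww A s)
  have j2 := Nat.mod_lt (D.toNat - 1) hw0
  have j3 : JJ ((s, ⟨_, hc⟩, σ) : Ix A) = ww A s * ((D.toNat - 1) / ww A s) + ww A s := by
    simp only [JJ]
    ring
  have j4 := JJ_le ((s, ⟨_, hc⟩, σ) : Ix A)
  obtain ⟨i, k, h1, h2, v, hv, h4⟩ := key (⟨_, hc⟩, σ) (if σ then a else -b)
    ((if σ then a else -b) + dm ((s, ⟨_, hc⟩, σ) : Ix A) - 1) (by omega)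
  obtain ⟨m1, m2, m3, m4⟩ := l5 i k h1 h2
  apply h4
  have j5 : 2 * A * uu A s = ww A s := rfl
  refine vec_low hv ?_ ?_ ?_ fun n1 n2 => ?_
  · omega
  · cases σ <;> simp only [sg, if_true, Bool.false_eq_true, if_false] <;> omega
  · simp only [dm] at j4 ⊢
    cases σ <;> simp only [sg, if_true, Bool.false_eq_true, if_false] <;> omega
  · simp only [dm, mu] at j4 n1 n2 ⊢
    cases σ <;> simp only [oe, if_true, Bool.false_eq_true, if_false] at m4 ⊢ <;> omega

end Pool.Agent.MP_0a2729_al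

end

-- part MP_0a2729_al.Alg
section

set_option autoImplicit false

namespace Pool.Agent.MP_0a2729_al

open El

section

variable {K N : Type} [Field K] [AddCommGroup N] (C : Cfg K N)

theorem om_single_right (f : ℤ →₀ K) (i : ℤ) (a : K) (I : Finset ℤ)
    (h : ∀ k, i < k → f k ≠ 0 → k ∈ I) :
    C.om f (Finsupp.single i a) = ∑ k ∈ I, C.eff i k (a * f k) := by
  rw [C.om_eq_sum f _ (I ∪ f.support) {i} Finset.subset_union_right Finsupp.support_single_subset]
  simp only [Finset.sum_singleton, Finsupp.single_eq_same]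
  refine (Finset.sum_subset Finset.subset_union_left fun k _ hk => ?_).symm
  by_cases hik : i < k
  · rw [not_not.1 (mt (h k hik) hk), mul_zero, map_zero]
  · exact C.eff_le _ _ _ (not_lt.1 hik)

theorem om_single_left (f : ℤ →₀ K) (k : ℤ) (a : K) (I : Finset ℤ)
    (h : ∀ i, i < k → f i ≠ 0 → i ∈ I) :
    C.om (Finsupp.single k a) f = ∑ i ∈ I, C.eff i k (a * f i) := by
  rw [C.om_eq_sum _ f {k} (I ∪ f.support) Finsupp.support_single_subset Finset.subset_union_right]
  simp only [Finset.sum_singleton, Finsupp.single_eq_same, mul_comm _ a]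
  refine (Finset.sum_subset Finset.subset_union_left fun i _ hi => ?_).symm
  by_cases hik : i < k
  · rw [not_not.1 (mt (h i hik) hi), mul_zero, map_zero]
  · exact C.eff_le _ _ _ (not_lt.1 hik)

/-- Edge at distance `d` from the end `τ` of `[0, W)`. -/
def pos (τ : Bool) (W d : ℕ) : ℤ := if τ then (W : ℤ) - 1 - d else d

/-- Effect of a zigzag at the end `τ`. -/
noncomputable def Om (τ : Bool) (f : ℤ →₀ K) : (ℤ →₀ K) →+ N := if τ then C.om f else C.om.flip f

/-- Effect of a pair of edges at distances `s < d` from the end `τ`. -/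
def ef (τ : Bool) (W s d : ℕ) : K →+ N :=
  if τ then C.eff (pos τ W d) (pos τ W s) else C.eff (pos τ W s) (pos τ W d)

theorem Om_single (τ : Bool) (W d : ℕ) (f : ℤ →₀ K) (hf : ∀ i, f i ≠ 0 → 0 ≤ i ∧ i < W) (a : K) :
    Om C τ f (Finsupp.single (pos τ W d) a) =
      ∑ s ∈ Finset.range d, ef C τ W s d (a * f (pos τ W s)) := by
  have hinj : ∀ x ∈ Finset.range d, ∀ y ∈ Finset.range d, pos τ W x = pos τ W y → x = y := by
    intro x _ y _ h
    unfold pos at h
    split_ifs at h <;> omega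
  cases τ
  · simp only [Om, ef, Bool.false_eq_true, if_false, AddMonoidHom.flip_apply]
    rw [om_single_left C f _ a ((Finset.range d).image (pos false W)), Finset.sum_image hinj]
    intro i h1 h2
    have := hf i h2
    simp only [pos, Bool.false_eq_true, if_false, Finset.mem_image, Finset.mem_range] at h1 ⊢
    exact ⟨i.toNat, by omega, by omega⟩
  · simp only [Om, ef, if_true]
    rw [om_single_right C f _ a ((Finset.range d).image (pos true W)), Finset.sum_image hinj]
    intro k h1 h2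
    have := hf k h2
    simp only [pos, if_true, Finset.mem_image, Finset.mem_range] at h1 ⊢
    exact ⟨(W - 1 - k).toNat, by omega, by omega⟩

end

variable {A : ℕ} {K : Type} [Field K] (co : K →+ (Fin A × Bool → Fin (2 * A) → F2)) (hA : 1 ≤ A)

/-- Lower end of the covered range of exponents. -/
def al (b : Bool) (W : ℕ) : ℤ := if b then 0 else -W

/-- Upper end of the covered range of exponents. -/
def be (b : Bool) (W : ℕ) : ℤ := if b then W else 0

/-- The filtration of the component `t` along a zigzag at the end `τ`. -/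
noncomputable def FF (τ : Bool) (W d : ℕ) (t : Ix A) : Submodule F2 (Rng (dm t)) :=
  Fil (2 * A) (uu A t.1) (JJ t) (mu t) (dm t) (t.2.2 = τ) (al t.2.2 W) (be t.2.2 W) d

/-- The part of the component `t` reached by local loops along `[0, W]`. -/
noncomputable def ZZ (W : ℕ) (t : Ix A) : Submodule F2 (Rng (dm t)) :=
  Sp (dm t) (al t.2.2 W) (be t.2.2 W + ww A t.1)

theorem zz (hco : Function.Surjective co) (τ : Bool) (s W D : ℕ) (hW : A * ww A s ≤ W)
    (hD : D < W) (P : Ix A → Prop) (hP : ∀ t, P t → t.1 = s) (f : ℤ →₀ K)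
    (hf : ∀ i, f i ≠ 0 → 0 ≤ i ∧ i < W) (h0 : 1 ≤ D → f (pos τ W 0) ≠ 0) {z : NN A}
    (hz : z ∈ Des P (FF τ W D)) :
    ∃ g : ℤ →₀ K, (∀ i, g i ≠ 0 → ∃ d < D, i = pos τ W (d + 1)) ∧
      z + Om (cfg co hA) τ f g ∈ Des P (ZZ W) := by
  refine (zigzag (fun d => Des P (FF τ W d)) (ef (cfg co hA) τ W)
    (fun s => f (pos τ W s)) D h0 ?_ ?_ hz).elim fun η hη => ?_
  rotate_right
  · refine ⟨∑ d ∈ Finset.range D, Finsupp.single (pos τ W (d + 1)) (η d), fun i hi => ?_, ?_⟩
    · rw [Finsupp.finsetSum_apply] at hi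
      obtain ⟨d, hd, h⟩ := Finset.exists_ne_zero_of_sum_ne_zero hi
      exact ⟨d, Finset.mem_range.1 hd, (Finsupp.single_apply_ne_zero.1 h).1⟩
    · rw [map_sum]
      simp only [Om_single _ _ _ _ _ hf]
      exact fun t ht => Fil_zero (uu_pos hA _) (hη t ht)
  · intro d s' y h1 h2 h3 t ht
    have h4 := two_uu_le hA t.1
    have h5 := uu_pos hA t.1
    have hW' : 2 * uu A t.1 ≤ mu t →
        al t.2.2 W + (JJ t + 2 * A * uu A t.1 + mu t : ℕ) ≤ be t.2.2 W := by
      intro h
      have h6 : 2 * A * uu A t.1 = ww A t.1 := rfl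
      rw [← hP t ht] at hW
      simp only [mu, al, be] at h ⊢
      split_ifs <;> omega
    have hn : dm t ≤ 2 * A * (2 * A * uu A t.1) := by
      change _ - _ - _ ≤ 2 * A * ww A t.1
      omega
    unfold ef
    split_ifs with hτ <;>
      refine eff_mem co hA _ _ _ _ _ fun v hv => vec_rest h5 hn hW' hv ?_ ?_ ?_ ?_ ?_ <;>
      cases hb : t.2.2 <;> simp [pos, sg, oe, al, be, hτ] <;> omega
  · intro d hd z hz
    have key : ∀ i k : ℤ, k - i = d + 1 → (∀ b : Bool, b = τ → oe b i k = be b W) →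
        ∃ y, z - (cfg co hA).eff i k y ∈ Des P (FF τ W d) := by
      intro i k h1 h2
      refine fill_Des co hA hco s P hP (FF τ W (d + 1)) (FF τ W d) i k (fun t _ z hz => ?_) z hz
      unfold vc
      rw [show (k - i).toNat = d + 1 by omega]
      exact vec_fill (by omega) (min_le_left _ _) (ww_le_JJ t) (h2 _) hz
    unfold ef
    split_ifs with hτ <;> refine key _ _ ?_ ?_ <;> simp [pos, oe, be, hτ]

theorem alg_side (hco : Function.Surjective co) (τ : Bool) (s W big small : ℕ)
    (h1 : small ≤ big) (h2 : W + big + small = 2 * A * ww A s) (h3 : big + small ≤ W)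
    (f : ℤ →₀ K) (hf : ∀ i, f i ≠ 0 → 0 ≤ i ∧ i < W) (hb : 0 < big → f (pos τ W 0) ≠ 0)
    (hs : 0 < small → f (pos (!τ) W 0) ≠ 0) (ν : NN A) :
    ∃ g g' : ℤ →₀ K, (∀ i, g i ≠ 0 → ∃ d < big, i = pos τ W d) ∧
      (∀ i, g' i ≠ 0 → ∃ d < small, i = pos (!τ) W d) ∧
      ν + Om (cfg co hA) (!τ) f g' + Om (cfg co hA) τ f g ∈ Des (fun t => t.1 = s) (ZZ W) := by
  have hu := uu_pos hA s
  have hw2 := two_uu_le hA s
  have e2 : 2 * A * ww A s = 2 * (A * ww A s) := mul_assoc _ _ _
  have hAw : ww A s ≤ A * ww A s := Nat.le_mul_of_pos_left _ hA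
  have hw0 : 0 < ww A s := by omega
  obtain ⟨q, j0, hq, j1, j2⟩ : ∃ q j0, j0 = q * ww A s ∧ j0 ≤ big - 1 ∧ big ≤ j0 + ww A s := by
    have a1 := Nat.div_add_mod (big - 1) (ww A s)
    have a2 := Nat.mod_lt (big - 1) hw0
    exact ⟨(big - 1) / ww A s, _, rfl, by rw [mul_comm]; omega, by rw [mul_comm]; omega⟩
  have full : ∀ (t : Ix A) (σ : Bool) (d : ℕ), t.1 = s → t.2.2 = σ → j0 ≤ JJ t →
      min (small - 1) j0 ≤ d → ∀ z, z ∈ FF σ W d t := by
    intro t σ d ht hσ hj hd z
    refine Submodule.mem_sup_left (mem_Sp ?_ z)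
    have h6 : 2 * A * uu A t.1 = ww A t.1 := rfl
    have h7 := JJ_le t
    rw [if_pos hσ, h6]
    simp only [dm, mu, al, be, ht] at h7 ⊢
    split_ifs <;> omega
  obtain ⟨g', k1, k2⟩ := zz co hA hco (!τ) s W (min (small - 1) j0) (by omega) (by omega)
    (fun t => t.1 = s ∧ t.2.2 = (!τ) ∧ j0 ≤ JJ t) (fun t ht => ht.1) f hf
    (fun h => hs (by omega)) (z := ν) fun t ht => full t _ _ ht.1 ht.2.1 ht.2.2 le_rfl _
  obtain ⟨g, k3, k4⟩ := zz co hA hco τ s W j0 (by omega) (by omega)
    (fun t => t.1 = s) (fun t ht => ht) f hf (fun h => hb (by omega))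
    (z := ν + Om (cfg co hA) (!τ) f g') fun t ht => by
      by_cases hj : j0 ≤ JJ t
      · by_cases hτ : t.2.2 = τ
        · exact full t _ _ ht hτ hj (min_le_right _ _) _
        · refine Submodule.mem_sup_left (Sp_mono le_rfl ?_ (k2 t ⟨ht, Bool.eq_not_of_ne hτ, hj⟩))
          rw [if_neg hτ]
          exact le_rfl
      · refine Submodule.mem_sup_right (mem_Pl_top ?_ _)
        have ht' : t.1 = s := ht
        have a1 : (t.2.1 : ℕ) + 1 < q := by
          by_contra a2
          refine hj ?_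
          rw [hq, JJ, ht']
          exact Nat.mul_le_mul_right _ (not_lt.1 a2)
        have a3 : ((t.2.1 : ℕ) + 1 + 1) * ww A s ≤ q * ww A s := Nat.mul_le_mul_right _ a1
        have a4 : 2 * A * ww A s ≤ 2 * A * (j0 - JJ t) := Nat.mul_le_mul_left _ (by
          rw [JJ, ht', hq]
          rw [Nat.succ_mul] at a3
          omega)
        simp only [dm, ht']
        omega
  refine ⟨g, g', fun i hi => ?_, fun i hi => ?_, k4⟩
  · obtain ⟨d, h4, h5⟩ := k3 i hi
    exact ⟨d + 1, by omega, h5⟩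
  · obtain ⟨d, h4, h5⟩ := k1 i hi
    exact ⟨d + 1, by omega, h5⟩

theorem alg (hco : Function.Surjective co) (s W h j : ℕ) (h2 : W + h + j = 2 * A * ww A s)
    (h3 : h + j ≤ W) (f : ℤ →₀ K) (hf : ∀ i, f i ≠ 0 → 0 ≤ i ∧ i < W) (hb : 0 < h → f 0 ≠ 0)
    (ht : 0 < j → f (W - 1) ≠ 0) (ν : NN A) :
    ∃ g1 g3 : ℤ →₀ K, (∀ i, g1 i ≠ 0 → 0 ≤ i ∧ i < h) ∧ (∀ i, g3 i ≠ 0 → W - j ≤ i ∧ i < W) ∧
      ν + (cfg co hA).om g1 f + (cfg co hA).om f g3 ∈ Des (fun t => t.1 = s) (ZZ W) := by
  by_cases hj : h ≤ j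
  · obtain ⟨g, g', k1, k2, k3⟩ := alg_side co hA hco true s W j h hj (by omega) (by omega) f hf
      (by simpa [pos] using ht) (by simpa [pos] using hb) ν
    refine ⟨g', g, fun i hi => ?_, fun i hi => ?_, by simpa [Om] using k3⟩
    · obtain ⟨d, h4, rfl⟩ := k2 i hi
      simp only [pos, Bool.not_true, Bool.false_eq_true, if_false]
      omega
    · obtain ⟨d, h4, rfl⟩ := k1 i hi
      simp only [pos, if_true]
      omega
  · obtain ⟨g, g', k1, k2, k3⟩ := alg_side co hA hco false s W h j (by omega) (by omega)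
      (by omega) f hf (by simpa [pos] using hb) (by simpa [pos] using ht) ν
    refine ⟨g, g', fun i hi => ?_, fun i hi => ?_, by simpa [Om, add_right_comm ν] using k3⟩
    · obtain ⟨d, h4, rfl⟩ := k1 i hi
      simp only [pos, Bool.false_eq_true, if_false]
      omega
    · obtain ⟨d, h4, rfl⟩ := k2 i hi
      simp only [pos, Bool.not_false, if_true]
      omega

end Pool.Agent.MP_0a2729_al

end

-- part MP_0a2729_al.Upper
section

set_option autoImplicit false

namespace Pool.Agent.MP_0a2729_al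

open El

variable {A : ℕ} {K : Type} [Field K] (co : K →+ (Fin A × Bool → Fin (2 * A) → F2)) (hA : 1 ≤ A)

theorem local_loop (hco : Function.Surjective co) (s : ℕ) (ν : NN A)
    (hν : ∀ t : Ix A, t.1 = s → ν t ∈ Sp (dm t) 0 (ww A s)) :
    ∃ ν' : NN A, (∀ t : Ix A, t.1 = s → ν' t = ν t) ∧ ν' ∈ Hi (s + 1) ∧
      Wd (letter (cfg co hA)) ⟨ν', 0, 0⟩ (10 * uu A s) := by
  have hu := uu_pos hA s
  refine (zigzag (fun d => Des (fun t => t.1 = s) fun t =>
      Sp (dm t) 0 (2 * A * (d + 1 - uu A s) : ℕ))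
    (fun s' d => if s' = 0 then (cfg co hA).eff 0 d else 0) (fun _ => 1) (2 * uu A s - 1)
    (fun _ => one_ne_zero) ?_ ?_ (z := -ν) ?_).elim fun η hη => ?_
  · intro d s' y _ h _
    rw [if_neg h.ne']
    exact zero_mem _
  · intro d hd z hz
    rw [if_pos rfl]
    refine fill_Des co hA hco s _ (fun _ h => h) _ _ 0 _ (fun t ht z hz => ?_) z hz
    obtain ⟨s', q⟩ := t
    obtain rfl : s' = s := ht
    unfold vc
    rw [show (((d + 1 : ℕ) : ℤ) - 0).toNat = d + 1 by omega, show sg (s', q).2.2 0 = 0 by simp [sg]]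
    exact vec_local (by omega) hz
  · intro t ht
    rw [show 2 * uu A s - 1 + 1 - uu A s = uu A s by omega]
    exact neg_mem (hν t ht)
  · let y : ℤ →₀ K :=
      ∑ d ∈ Finset.range (2 * uu A s - 1), Finsupp.single ((d + 1 : ℕ) : ℤ) (η d)
    have hy : ∀ i, y i ≠ 0 → 0 ≤ i ∧ i < (2 * uu A s : ℕ) := by
      intro i hi
      rw [Finsupp.finsetSum_apply] at hi
      obtain ⟨d, hd, h⟩ := Finset.exists_ne_zero_of_sum_ne_zero hi
      have h1 := Finset.mem_range.1 hd
      have h2 := (Finsupp.single_apply_ne_zero.1 h).1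
      omega
    have hδ : ∀ i, (Finsupp.single 0 1 : ℤ →₀ K) i ≠ 0 → 0 ≤ i ∧ i < (1 : ℕ) := by
      intro i hi
      have h2 := (Finsupp.single_apply_ne_zero.1 hi).1
      omega
    refine ⟨(cfg co hA).om y (Finsupp.single 0 1), fun t ht => ?_, ?_, ?_⟩
    · have h1 : _ ∈ Sp (dm t) 0 (2 * A * (0 + 1 - uu A s) : ℕ) := hη t ht
      rw [show 0 + 1 - uu A s = 0 by omega] at h1
      simp only [Sp, mul_zero, Nat.cast_zero, Set.Ico_self, Set.image_empty, Submodule.span_empty,
        Submodule.mem_bot, Finset.sum_range_succ', Nat.succ_ne_zero, if_false, if_true,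
        AddMonoidHom.zero_apply, Finset.sum_const_zero, zero_add, mul_one, Pi.add_apply,
        Pi.neg_apply, neg_add_eq_zero] at h1
      rw [h1, map_sum, AddMonoidHom.finsetSum_apply]
      simp only [Cfg.om_single, one_mul]
    · refine om_mem_Hi co hA (a := 0) (b := (2 * uu A s : ℕ)) (fun i h => (hy i h).2)
        (fun i h => (hδ i h).1) ?_
      have h1 := uu_succ (A := A) s
      have h2 := two_uu_le hA s
      have h3 : ww A s ≤ 2 * A * ww A s := Nat.le_mul_of_pos_left _ (by omega)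
      omega
    · have h1 := ((lamp_word (C := cfg co hA) y _ hy).mul (lamp_word _ _ hδ)).mul
        ((lamp_word (C := cfg co hA) (y + Finsupp.single 0 1) (2 * uu A s) fun i hi => by
          by_cases h : y i = 0
          · have := hδ i (by simpa [h] using hi)
            omega
          · exact hy i h).inv letter_inv)
      have h2 : (⟨0, y, 0⟩ : El (cfg co hA)) * ⟨0, Finsupp.single 0 1, 0⟩ =
          ⟨(cfg co hA).om y (Finsupp.single 0 1), 0, 0⟩ * ⟨0, y + Finsupp.single 0 1, 0⟩ := by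
        rw [pure_mul]
        simp [mul_def, sh_zero]
      rw [h2, mul_inv_cancel_right] at h1
      exact h1.mono (by omega)

theorem windows (hco : Function.Surjective co) (s : ℕ) (g : ℤ →₀ K) (hg : below g 0 = 0) (q : ℕ) :
    ∀ m : ℕ, m ≤ q * ww A s → ∀ ν : NN A, ν ∈ Des (fun t => t.1 = s) (ZZ m) →
      ∃ ν' : NN A, (∀ t : Ix A, t.1 = s → ν' t = ν t) ∧ ν' ∈ Hi (s + 1) ∧
        Wd (letter (cfg co hA)) ⟨ν', below g m, m⟩ (m + (q + 1) * (10 * uu A s)) := by
  induction q with
  | zero =>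
    intro m hm ν hν
    obtain rfl : m = 0 := by omega
    obtain ⟨ν', h1, h2, h3⟩ := local_loop co hA hco s ν fun t ht => by
      have h : ν t ∈ ZZ 0 t := hν t ht
      simpa [ZZ, al, be, ht] using h
    exact ⟨ν', h1, h2, by simpa [hg] using h3⟩
  | succ q ih =>
    intro m hm ν hν
    rw [Nat.succ_mul] at hm
    have hsplit : ∀ t : Ix A, ∃ z1 z2 : Rng (dm t), t.1 = s → z1 ∈ ZZ (m - ww A s) t ∧
        z2 ∈ Sp (dm t) (sg t.2.2 m) (sg t.2.2 m + ww A s) ∧ z1 + z2 = ν t := by
      intro t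
      by_cases ht : t.1 = s
      · have h : ν t ∈ ZZ m t := hν t ht
        have h' : ν t ∈ ZZ (m - ww A s) t ⊔ Sp (dm t) (sg t.2.2 m) (sg t.2.2 m + ww A s) := by
          refine Sp_split (fun e h1 h2 => ?_) h
          simp only [al, be, sg, ht] at h1 h2 ⊢
          split_ifs at h1 h2 ⊢ <;> omega
        obtain ⟨z1, h1, z2, h2, h3⟩ := Submodule.mem_sup.1 h'
        exact ⟨z1, z2, fun _ => ⟨h1, h2, h3⟩⟩
      · exact ⟨0, 0, fun h => absurd h ht⟩
    choose z1 z2 hz using hsplit
    obtain ⟨ν1, a1, a2, a3⟩ := ih (m - ww A s) (by omega) z1 fun t ht => (hz t ht).1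
    obtain ⟨ν2, b1, b2, b3⟩ := local_loop co hA hco s ((cfg co hA).T (-m) z2) fun t ht => by
      rw [cfg_T]
      refine Sp_mono ?_ ?_ (Sp_mul _ (hz t ht).2.1) <;> unfold sg <;> split_ifs <;> omega
    have c1 := (up_walk ν1 g _ (m - (m - ww A s)) _ a3).mul b3
    rw [mul_pure, show ((m - ww A s : ℕ) : ℤ) + (m - (m - ww A s) : ℕ) = m by omega] at c1
    refine ⟨_, fun t ht => ?_, add_mem a2 (T_mem_Hi co hA _ b2), c1.mono ?_⟩
    · rw [Pi.add_apply, a1 t ht, cfg_T, b1 t ht, ← cfg_T co hA, ← (cfg co hA).T_add,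
        add_neg_cancel, (cfg co hA).T_zero]
      exact (hz t ht).2.2
    · rw [Nat.succ_mul (q + 1)]
      omega

theorem pass_word (h3 : 3 ≤ A) (hco : Function.Surjective co) (s : ℕ)
    (ih : ∀ ν ∈ Hi s, Wd (letter (cfg co hA)) ⟨ν, 0, 0⟩ (uu A s)) (m : ℕ)
    (hm : m ≤ 2 * A * ww A s) (g : ℤ →₀ K) (hg : ∀ i, g i ≠ 0 → 0 ≤ i ∧ i < m) (ν : NN A)
    (h1 : ν ∈ Hi (s + 1)) (h2 : ν ∈ Des (fun t => t.1 = s) (ZZ m)) :
    Wd (letter (cfg co hA)) ⟨ν, g, m⟩ (m + 12 * ww A s) := by
  have e0 : below g 0 = 0 := by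
    ext i
    rw [below_apply]
    split_ifs with h
    · by_contra h'
      have := hg i h'
      omega
    · rfl
  have e1 : below g m = g := by
    ext i
    rw [below_apply]
    split_ifs with h
    · rfl
    · by_contra h'
      exact h (hg i (Ne.symm h')).2
  obtain ⟨ν', a1, a2, a3⟩ := windows co hA hco s g e0 (2 * A) m hm ν h2
  have a4 := (ih (ν - ν') fun t ht => by
    rcases (show s ≤ t.1 from ht).eq_or_lt with h | h
    · exact sub_eq_zero.2 (a1 t h.symm).symm
    · exact sub_mem h1 a2 t h).mul a3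
  rw [pure_mul, sub_add_cancel, e1] at a4
  refine a4.mono ?_
  have a5 : (2 * A + 1) * (10 * uu A s) = 10 * ww A s + 10 * uu A s := by
    simp only [ww]
    ring
  have a6 : 6 * uu A s ≤ ww A s := Nat.mul_le_mul_right _ (by omega)
  omega

theorem pure_word (h3 : 3 ≤ A) (hco : Function.Surjective co) (s : ℕ) :
    ∀ ν ∈ Hi s, Wd (letter (cfg co hA)) ⟨ν, 0, 0⟩ (uu A s) := by
  induction s with
  | zero =>
    intro ν hν
    obtain rfl : ν = 0 := funext fun t => hν t (Nat.zero_le _)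
    exact Wd.one.mono (Nat.zero_le _)
  | succ s ih =>
    intro ν hν
    have h1 := (pass_word co hA h3 hco s ih _ le_rfl 0 (by simp) ν hν fun t ht => mem_Sp (by
      have ht' : t.1 = s := ht
      simp only [dm, al, be, ht']
      split_ifs <;> omega) _).mul
      ((up_pass (C := cfg co hA) 0 (2 * A * ww A s) (by simp)).inv letter_inv)
    have h2 : (⟨ν, 0, (2 * A * ww A s : ℕ)⟩ : El (cfg co hA)) =
        ⟨ν, 0, 0⟩ * ⟨0, 0, (2 * A * ww A s : ℕ)⟩ := by
      rw [pure_mul, add_zero]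
    rw [h2, mul_inv_cancel_right] at h1
    refine h1.mono ?_
    have h4 : 6 * ww A s ≤ 2 * A * ww A s := Nat.mul_le_mul_right _ (by omega)
    rw [uu_succ]
    omega

theorem sphere_pos (h3 : 3 ≤ A) (hco : Function.Surjective co) (s : ℕ) (g : El (cfg co hA))
    (a b : ℤ) (h1 : a ≤ 0) (h2 : 0 ≤ g.p) (h4 : g.p ≤ b) (h5 : ∀ i, g.f i ≠ 0 → a ≤ i ∧ i < b)
    (h6 : a < 0 → g.f a ≠ 0) (h7 : g.p < b → g.f (b - 1) ≠ 0)
    (h8 : 2 * (b - a) - g.p = (2 * A * ww A s : ℕ)) (h9 : g.n ∈ Hi (s + 1)) :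
    Wd (letter (cfg co hA)) g (2 * A * ww A s + 12 * ww A s) := by
  obtain ⟨h, hh⟩ := Int.eq_ofNat_of_zero_le (show 0 ≤ -a by omega)
  obtain ⟨j, hj⟩ := Int.eq_ofNat_of_zero_le (show 0 ≤ b - g.p by omega)
  obtain ⟨W, hW⟩ := Int.eq_ofNat_of_zero_le (show 0 ≤ b - a by omega)
  have hf : ∀ i, sh h g.f i ≠ 0 → 0 ≤ i ∧ i < W := by
    intro i hi
    rw [sh_apply] at hi
    have := h5 _ hi
    omega
  obtain ⟨g1, g3, k1, k2, k3⟩ := alg co hA hco s W h j (by omega) (by omega) (sh h g.f) hf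
    (fun h0 => by
      rw [sh_apply, show (0 : ℤ) - h = a by omega]
      exact h6 (by omega))
    (fun h0 => by
      rw [sh_apply, show (W : ℤ) - 1 - h = b - 1 by omega]
      exact h7 (by omega))
    ((cfg co hA).T h g.n)
  have hu := uu_succ (A := A) s
  have k4 := pass_word co hA h3 hco s (pure_word co hA h3 hco s) W (by omega)
    (g1 + sh h g.f + g3) (fun i hi => by
      by_cases c1 : g1 i = 0
      · by_cases c3 : g3 i = 0
        · exact hf i (by simpa [c1, c3] using hi)
        · have := k2 i c3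
          omega
      · have := k1 i c1
        omega) _
    (add_mem (add_mem (T_mem_Hi co hA _ h9)
      (om_mem_Hi co hA (a := 0) (b := W) (fun i hi => by have := k1 i hi; omega)
        (fun i hi => (hf i hi).1) (by omega)))
      (om_mem_Hi co hA (a := 0) (b := W) (fun i hi => (hf i hi).2)
        (fun i hi => by have := k2 i hi; omega) (by omega))) k3
  have k5 := up_pass (C := cfg co hA) g1 h k1
  have k6 := up_pass (C := cfg co hA) (sh (-(h + g.p)) g3) j fun i hi => by
    rw [sh_apply] at hi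
    have := k2 _ hi
    omega
  have k7 : (cfg co hA).om g1 g3 = 0 := (cfg co hA).om_eq_zero _ _ fun i k c1 c2 => by
    have := k1 k c2
    have := k2 i c1
    omega
  have k8 : (⟨(cfg co hA).T h g.n + (cfg co hA).om g1 (sh h g.f) + (cfg co hA).om (sh h g.f) g3,
      g1 + sh h g.f + g3, W⟩ : El (cfg co hA)) =
      ⟨0, g1, h⟩ * g * ⟨0, sh (-(h + g.p)) g3, j⟩ := by
    simp only [mul_def, ← sh_add, add_neg_cancel, sh_zero, map_add, AddMonoidHom.add_apply, k7,
      zero_add, map_zero, add_zero, El.mk.injEq, true_and]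
    omega
  have k9 := ((k5.inv letter_inv).mul k4).mul (k6.inv letter_inv)
  rw [k8, ← mul_assoc, inv_mul_cancel_left, mul_inv_cancel_right] at k9
  exact k9.mono (by omega)

theorem sphere (h3 : 3 ≤ A) (hco : Function.Surjective co) (s : ℕ) (g : El (cfg co hA))
    (a b : ℤ) (h1 : a ≤ 0) (h1' : a ≤ g.p) (h2 : 0 ≤ b) (h4 : g.p ≤ b)
    (h5 : ∀ i, g.f i ≠ 0 → a ≤ i ∧ i < b) (h6 : a < 0 → a < g.p → g.f a ≠ 0)
    (h7 : 0 < b → g.p < b → g.f (b - 1) ≠ 0)
    (h8 : 2 * (b - a) - |g.p| = (2 * A * ww A s : ℕ)) (h9 : g.n ∈ Hi (s + 1)) :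
    Wd (letter (cfg co hA)) g (2 * A * ww A s + 12 * ww A s) := by
  by_cases hp : 0 ≤ g.p
  · rw [abs_of_nonneg hp] at h8
    exact sphere_pos co hA h3 hco s g a b h1 hp h4 h5 (fun h => h6 h (by omega))
      (fun h => h7 (by omega) h) h8 h9
  · rw [abs_of_neg (not_le.1 hp)] at h8
    have hu := uu_succ (A := A) s
    have hf : ∀ i, sh (-g.p) g.f i ≠ 0 → a - g.p ≤ i ∧ i < b - g.p := by
      intro i hi
      rw [sh_apply] at hi
      have := h5 _ hi
      omega
    have := (sphere_pos co hA h3 hco s g⁻¹ (a - g.p) (b - g.p) (by omega)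
      (by simp only [inv_def]; omega) (by simp only [inv_def]; omega)
      (fun i hi => hf i (by simpa only [inv_def, Finsupp.neg_apply, neg_ne_zero] using hi))
      (fun h => by simpa [inv_def] using h6 (by omega) (by omega))
      (fun h => by
        simp only [inv_def] at h
        simp only [inv_def, Finsupp.neg_apply, neg_ne_zero, sh_apply]
        rw [show b - g.p - 1 - -g.p = b - 1 by ring]
        exact h7 (by omega) (by omega))
      (by simp only [inv_def]; omega)
      (add_mem (neg_mem (T_mem_Hi co hA _ h9)) (om_mem_Hi co hA (fun i hi => (hf i hi).2)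
        (fun i hi => (hf i hi).1) (by omega)))).inv letter_inv
    rwa [inv_inv] at this

/-- The lamplighter length of the image of `g` is at most `ρ`. -/
def Small (g : El (cfg co hA)) (ρ : ℤ) : Prop :=
  ∃ a b : ℤ, a ≤ 0 ∧ a ≤ g.p ∧ 0 ≤ b ∧ g.p ≤ b ∧ (∀ i, g.f i ≠ 0 → a ≤ i ∧ i < b) ∧
    2 * (b - a) - |g.p| ≤ ρ

theorem step (h3 : 3 ≤ A) (hco : Function.Surjective co) (s : ℕ) (g : El (cfg co hA))
    (h1 : Small co hA g ((2 * A * ww A s : ℕ) - 1)) (h2 : g.n ∈ Hi (s + 1)) (l : Bool × K) :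
    (Small co hA (g * letter _ l) ((2 * A * ww A s : ℕ) - 1) ∧ (g * letter _ l).n ∈ Hi (s + 1)) ∨
      Wd (letter (cfg co hA)) (g * letter _ l) (2 * A * ww A s + 12 * ww A s) := by
  obtain ⟨c, y⟩ := l
  obtain ⟨a, b, a1, a2, a3, a4, a5, a6⟩ := h1
  have hu := uu_succ (A := A) s
  have hab := abs_cases g.p
  have hn : (g * letter _ (c, y)).n ∈ Hi (s + 1) := by
    rw [mul_letter]
    refine add_mem h2 (om_mem_Hi co hA (a := a - 1) (fun i hi => (a5 i hi).2) (fun i hi => ?_)
      (by omega))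
    have := (Finsupp.single_apply_ne_zero.1 hi).1
    unfold edge at this
    split_ifs at this <;> omega
  have hp : (g * letter _ (c, y)).p = next c g.p := by rw [mul_letter]
  have hf : ∀ i, (g * letter _ (c, y)).f i ≠ 0 →
      min a (next c g.p) ≤ i ∧ i < max b (next c g.p) := by
    intro i hi
    rw [mul_letter] at hi
    by_cases h : g.f i = 0
    · have := (Finsupp.single_apply_ne_zero.1 (by simpa [h] using hi)).1
      unfold edge at this
      unfold next
      split_ifs at this ⊢ <;> omega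
    · have := a5 i h
      omega
  have hab' := abs_cases (next c g.p)
  have hρ : 2 * (max b (next c g.p) - min a (next c g.p)) - |next c g.p| ≤
      (2 * A * ww A s : ℕ) := by
    unfold next at hab' ⊢
    split_ifs at hab' ⊢ <;> omega
  rw [← hp] at hf hρ hab'
  generalize g * letter _ (c, y) = g' at hn hf hρ hab'
  by_cases hS : Small co hA g' ((2 * A * ww A s : ℕ) - 1)
  · exact Or.inl ⟨hS, hn⟩
  · refine Or.inr (sphere co hA h3 hco s g' (min a g'.p) (max b g'.p) (by omega) (by omega)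
      (by omega) (by omega) hf (fun b1 b2 b3 => hS ?_) (fun b1 b2 b3 => hS ?_) ?_ hn)
    · refine ⟨min a g'.p + 1, max b g'.p, by omega, by omega, by omega, by omega,
        fun i hi => ?_, by omega⟩
      have := hf i hi
      have : i ≠ min a g'.p := fun h => hi (h ▸ b3)
      omega
    · refine ⟨min a g'.p, max b g'.p - 1, by omega, by omega, by omega, by omega,
        fun i hi => ?_, by omega⟩
      have := hf i hi
      have : i ≠ max b g'.p - 1 := fun h => hi (h ▸ b3)
      omega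
    · by_contra h
      exact hS ⟨min a g'.p, max b g'.p, by omega, by omega, by omega, by omega, hf, by omega⟩

theorem small_word (h3 : 3 ≤ A) (hco : Function.Surjective co) (s R : ℕ) (g : El (cfg co hA))
    (h1 : Small co hA g R) (h2 : g.n ∈ Hi s) :
    Wd (letter (cfg co hA)) g (R + (uu A s + 2 * R) + 2 * R) := by
  obtain ⟨a, b, a1, a2, a3, a4, a5, a6⟩ := h1
  have hab := abs_cases g.p
  obtain ⟨j, hj⟩ := Int.eq_ofNat_of_zero_le (show 0 ≤ R - g.p by omega)
  have k1 := up_pass (C := cfg co hA) 0 R (by simp)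
  have k2 := up_pass (C := cfg co hA) 0 j (by simp)
  have k3 := (pure_word co hA h3 hco s _ (T_mem_Hi co hA R h2)).mul
    (up_pass (C := cfg co hA) (sh R g.f) (2 * R) fun i hi => by
      rw [sh_apply] at hi
      have := a5 _ hi
      omega)
  have k4 : (⟨(cfg co hA).T R g.n, 0, 0⟩ : El (cfg co hA)) * ⟨0, sh R g.f, (2 * R : ℕ)⟩ =
      ⟨0, 0, R⟩ * g * ⟨0, 0, j⟩ := by
    rw [pure_mul]
    simp only [mul_def, map_zero, AddMonoidHom.zero_apply, zero_add, add_zero, El.mk.injEq,
      true_and]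
    omega
  have k5 := ((k1.inv letter_inv).mul k3).mul (k2.inv letter_inv)
  rw [k4, ← mul_assoc, inv_mul_cancel_left, mul_inv_cancel_right] at k5
  exact k5.mono (by omega)

theorem exists_co (hA : 1 ≤ A) : ∃ (K : Type) (_ : Field K) (_ : Finite K)
    (co : K →+ (Fin A × Bool → Fin (2 * A) → F2)), Function.Surjective co := by
  have : Nonempty (Fin A) := ⟨⟨0, hA⟩⟩
  have : Nonempty (Fin (2 * A)) := ⟨⟨0, by omega⟩⟩
  have h : Module.finrank F2 (Fin A × Bool → Fin (2 * A) → F2) ≠ 0 := Module.finrank_pos.ne'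
  let e := LinearEquiv.ofFinrankEq (GaloisField 2 _) (Fin A × Bool → Fin (2 * A) → F2)
    (GaloisField.finrank 2 h)
  exact ⟨_, inferInstance, inferInstance, e.toLinearMap.toAddMonoidHom, e.surjective⟩

theorem main (ε : ℝ) (hε : 0 < ε) :
    ∃ (G : Type) (_ : Group G) (S : Finset G), Infinite G ∧ (∀ s ∈ S, s⁻¹ ∈ S) ∧
      Subgroup.closure (S : Set G) = ⊤ ∧ ∀ n : ℕ, ∃ x : G, n ≤ wordLength S x ∧
        (1 / 2 - ε) * (wordLength S x : ℝ) ≤ retreatDepth S x := by
  obtain ⟨B, hB⟩ := exists_nat_ge (7 / ε)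
  have hA : 1 ≤ B + 14 := by omega
  have h3 : 3 ≤ B + 14 := by omega
  obtain ⟨K, _, _, co, hco⟩ := exists_co hA
  refine interface (letter (cfg co hA)) letter_inv ε hε fun n => ?_
  have hu := uu_pos hA n
  have hw := two_uu_le hA n
  have hx : xx (B + 14) n ∈ Hi (n + 1) := mem_Hi.2 fun t ht => if_neg (by omega)
  have e : 2 * (B + 14) * ww (B + 14) n = 2 * (B * ww (B + 14) n) + 28 * ww (B + 14) n := by ring
  refine ⟨⟨xx (B + 14) n, 0, 0⟩, {g | Small co hA g ((2 * (B + 14) * ww (B + 14) n : ℕ) - 1) ∧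
    g.n ∈ Hi (n + 1)}, 2 * (B + 14) * ww (B + 14) n + 12 * ww (B + 14) n,
    (4 * B + 42) * ww (B + 14) n, ?_, ⟨⟨0, 0, ?_⟩, hx⟩, ⟨_, pure_word co hA h3 hco _ _ hx⟩,
    fun m hm => ?_, ?_, ?_, fun g hg l => step co hA h3 hco n g hg.1 hg.2 l⟩
  · refine (Wd.finite _).subset fun g hg =>
      small_word co hA h3 hco (n + 1) (2 * (B + 14) * ww (B + 14) n) g ?_ hg.2
    obtain ⟨a, b, a1, a2, a3, a4, a5, a6⟩ := hg.1
    exact ⟨a, b, a1, a2, a3, a4, a5, by omega⟩
  · simp only [le_refl, Finsupp.coe_zero, Pi.zero_apply, ne_eq, not_true_eq_false,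
      IsEmpty.forall_iff, implies_true, abs_zero, true_and]
    omega
  · have := lower co hA h3 n m hm
    have e' : (4 * B + 42) * ww (B + 14) n = 4 * (B * ww (B + 14) n) + 42 * ww (B + 14) n := by
      ring
    omega
  · have h1 : n < uu (B + 14) n := Nat.lt_pow_self (by
      have : 1 ≤ (B + 14) ^ 2 := Nat.one_le_pow _ _ hA
      omega)
    have h2 : ww (B + 14) n ≤ (4 * B + 42) * ww (B + 14) n := Nat.le_mul_of_pos_left _ (by omega)
    omega
  · push_cast
    have h1 : (0 : ℝ) ≤ ww (B + 14) n := Nat.cast_nonneg _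
    have h2 : 7 ≤ ε * B := by
      rw [div_le_iff₀ hε] at hB
      linarith
    nlinarith [mul_le_mul_of_nonneg_right h2 h1, mul_nonneg hε.le h1]

end Pool.Agent.MP_0a2729_al

end
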